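import Pool.Agent.P8H6.Irw.LL

/-!
# Short averages: the abstract theorem
-/

set_option autoImplicit false

namespace Pool.Agent.P8H6.Irw

open Finset Filter Topology
open Pool.Agent.Y958.TC
open Pool.Agent.Y958.U (LZ)
open Pool.Agent.Y842.EL (LZ_mono)

/-- the squares of the window averages have no correlation with slowly varying weights -/
def QP (Z : ℕ → ℂ) : Prop := ∀ H : ℕ, 1 ≤ H → ∀ ε : ℝ, 0 < ε → ∃ κ : ℝ, 0 < κ ∧
  UD {N | ∃ w : ℕ → ℂ, SC κ w ∧ ε * N < ‖∑ n ∈ range N, w n * (AH Z H n) ^ 2‖} ε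

lemma SC_sq {Z : ℕ → ℂ} (hZ : ∀ n, ‖Z n‖ ≤ 1) {K : ℕ} {κ : ℝ} (hK : 4 / (K : ℝ) ≤ κ) :
    SC κ (fun n => ((starRingEnd ℂ) (AH Z K n)) ^ 2) := by
  have hle : ∀ n, ‖(starRingEnd ℂ) (AH Z K n)‖ ≤ 1 := fun n => by
    rw [Complex.norm_conj]
    exact AH_le hZ K n
  refine ⟨fun n => ?_, fun n => ?_⟩
  · rw [norm_pow]
    have := norm_nonneg ((starRingEnd ℂ) (AH Z K n))
    nlinarith [hle n]
  · have e : ((starRingEnd ℂ) (AH Z K (n + 1))) ^ 2 - ((starRingEnd ℂ) (AH Z K n)) ^ 2 =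
        ((starRingEnd ℂ) (AH Z K (n + 1)) + (starRingEnd ℂ) (AH Z K n)) *
          (starRingEnd ℂ) (AH Z K (n + 1) - AH Z K n) := by
      rw [map_sub]
      ring
    rw [e, norm_mul, Complex.norm_conj]
    have h1 := AH_lip1 hZ (H := K) n
    have h2 := norm_add_le ((starRingEnd ℂ) (AH Z K (n + 1))) ((starRingEnd ℂ) (AH Z K n))
    have h3 := hle n
    have h4 := hle (n + 1)
    calc ‖(starRingEnd ℂ) (AH Z K (n + 1)) + (starRingEnd ℂ) (AH Z K n)‖ * ‖AH Z K (n + 1) - AH Z K n‖ ≤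
          2 * (2 / K) := mul_le_mul (by linarith) h1 (norm_nonneg _) (by norm_num)
      _ = 4 / K := by ring
      _ ≤ κ := hK

theorem small_ms {Z : ℕ → ℂ} (hZ : ∀ n, ‖Z n‖ ≤ 1) (hQ : QP Z) (ε : ℝ) (hε : 0 < ε) :
    ∃ H : ℕ, 1 ≤ H ∧ UD {N | ε < ms Z H N} ε := by
  classical
  -- the parameters
  obtain ⟨t, ht⟩ := exists_nat_gt (256 / ε ^ 2)
  have ht0 : (0 : ℝ) < t := lt_trans (by positivity) ht
  have ht1 : 1 ≤ t := by exact_mod_cast ht0
  have ht4 : 4 / (t : ℝ) ≤ ε ^ 2 / 64 := by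
    rw [div_lt_iff₀ (by positivity)] at ht
    rw [div_le_div_iff₀ ht0 (by norm_num)]
    linarith
  obtain ⟨D, hD⟩ : ∃ D : ℝ, D = (ε ^ 2 / 128) ^ 2 / t := ⟨_, rfl⟩
  have hD0 : 0 < D := by rw [hD]; positivity
  have hDs : 2 * Real.sqrt (t * D) ≤ ε ^ 2 / 64 := by
    have : (t : ℝ) * D = (ε ^ 2 / 128) ^ 2 := by rw [hD]; field_simp
    rw [this, Real.sqrt_sq (by positivity)]
    linarith
  obtain ⟨J, hJ⟩ := exists_nat_gt (2 / D)
  have hJ0 : (0 : ℝ) < J := lt_trans (by positivity) hJ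
  have hJ1 : 1 / (J : ℝ) ≤ D / 2 := by
    rw [div_lt_iff₀ hD0] at hJ
    rw [div_le_iff₀ hJ0]
    linarith
  obtain ⟨ε', hε'⟩ : ∃ ε' : ℝ, ε' = min (ε ^ 2 / 64) (ε / (2 * (J + 1))) := ⟨_, rfl⟩
  have hε'0 : 0 < ε' := by rw [hε']; exact lt_min (by positivity) (by positivity)
  have hε'1 : ε' ≤ ε ^ 2 / 64 := by rw [hε']; exact min_le_left _ _
  have hε'2 : ε' ≤ ε / (2 * (J + 1)) := by rw [hε']; exact min_le_right _ _
  have h1 : ∀ H : ℕ, ∃ κ : ℝ, 0 < κ ∧ (1 ≤ H →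
      UD {N | ∃ w : ℕ → ℂ, SC κ w ∧ ε' * N < ‖∑ n ∈ range N, w n * (AH Z H n) ^ 2‖} ε') := by
    intro H
    by_cases hH : 1 ≤ H
    · obtain ⟨κ, h2, h3⟩ := hQ H hH ε' hε'0
      exact ⟨κ, h2, fun _ => h3⟩
    · exact ⟨1, one_pos, fun h => absurd h hH⟩
  choose κ hκ0 hκ using h1
  set q : ℕ → ℕ := fun H => ⌈4 / κ H⌉₊ + 1 with hq
  set Hs : ℕ → ℕ := fun r => Nat.rec 1 (fun _ H => t * q H * H) r with hHs
  have hH0 : Hs 0 = 1 := rfl
  have hHr : ∀ r, Hs (r + 1) = t * q (Hs r) * Hs r := fun r => rfl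
  have hq1 : ∀ H, 1 ≤ q H := fun H => Nat.le_add_left _ _
  have hH1 : ∀ r, 1 ≤ Hs r := by
    intro r
    induction r with
    | zero => exact le_rfl
    | succ r ih =>
      rw [hHr]
      exact Nat.mul_pos (Nat.mul_pos ht1 (hq1 _)) ih
  have hHmono : Monotone Hs := by
    apply monotone_nat_of_le_succ
    intro r
    rw [hHr]
    exact Nat.le_mul_of_pos_left _ (Nat.mul_pos ht1 (hq1 _))
  have hHκ : ∀ r, 4 / (Hs (r + 1) : ℝ) ≤ κ (Hs r) := by
    intro r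
    have h2 : q (Hs r) ≤ Hs (r + 1) := by
      rw [hHr]
      calc q (Hs r) ≤ t * q (Hs r) := Nat.le_mul_of_pos_left _ ht1
        _ ≤ t * q (Hs r) * Hs r := Nat.le_mul_of_pos_right _ (hH1 r)
    have h3 : 4 / κ (Hs r) ≤ Hs (r + 1) := by
      refine (Nat.le_ceil _).trans ?_
      have h4 : ⌈4 / κ (Hs r)⌉₊ ≤ q (Hs r) := Nat.le_succ _
      exact_mod_cast h4.trans h2
    have h5 : (0 : ℝ) < Hs (r + 1) := by exact_mod_cast hH1 (r + 1)
    rw [div_le_iff₀ (hκ0 _)] at h3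
    rw [div_le_iff₀ h5]
    linarith
  refine ⟨Hs J, hH1 J, ?_⟩
  -- the exceptional set
  have hbad := UD.fin (range J) (fun r => {N | ∃ w : ℕ → ℂ, SC (κ (Hs r)) w ∧
    ε' * N < ‖∑ n ∈ range N, w n * (AH Z (Hs r) n) ^ 2‖}) (fun _ => ε') (fun r _ => hκ (Hs r) (hH1 r))
  rw [sum_const, card_range, nsmul_eq_mul] at hbad
  have hlt : (J : ℝ) * ε' < ε := by
    have h2 : (J : ℝ) * ε' ≤ J * (ε / (2 * (J + 1))) := mul_le_mul_of_nonneg_left hε'2 hJ0.le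
    have h3 : (J : ℝ) * (ε / (2 * (J + 1))) = ε * (J / (2 * (J + 1))) := by ring
    have h4 : (J : ℝ) / (2 * (J + 1)) < 1 := by
      rw [div_lt_one (by positivity)]
      linarith
    nlinarith
  obtain ⟨N₀, hN₀⟩ := exists_nat_ge (2 * (J + 1) * Hs J / min (min (ε ^ 2 / 64) (D / 2)) (ε / 4) + 1)
  refine hbad.mono ⟨N₀, fun N hN hNE => ?_⟩ hlt
  by_contra hcon
  simp only [Set.mem_ofPred_eq, not_exists, not_and, mem_range] at hcon
  have hmin : 0 < min (min (ε ^ 2 / 64) (D / 2)) (ε / 4) :=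
    lt_min (lt_min (by positivity) (by positivity)) (by positivity)
  have hNr : 2 * (J + 1) * Hs J / min (min (ε ^ 2 / 64) (D / 2)) (ε / 4) + 1 ≤ N := hN₀.trans (by exact_mod_cast hN)
  have hN1r : (1 : ℝ) ≤ N := by
    have : 0 ≤ 2 * ((J : ℝ) + 1) * Hs J / min (min (ε ^ 2 / 64) (D / 2)) (ε / 4) := by positivity
    linarith
  have hN1 : 1 ≤ N := by exact_mod_cast hN1r
  have hN0 : (0 : ℝ) < N := by linarith
  have herr : 2 * (J + 1) * Hs J / (N : ℝ) ≤ min (min (ε ^ 2 / 64) (D / 2)) (ε / 4) := by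
    have h2 : 2 * (J + 1) * Hs J / min (min (ε ^ 2 / 64) (D / 2)) (ε / 4) ≤ N := by linarith
    rw [div_le_iff₀ hmin] at h2
    rw [div_le_iff₀ hN0]
    linarith
  have herr1 : 2 * (J + 1) * Hs J / (N : ℝ) ≤ ε ^ 2 / 64 := herr.trans ((min_le_left _ _).trans (min_le_left _ _))
  have herr2 : 2 * (J + 1) * Hs J / (N : ℝ) ≤ D / 2 := herr.trans ((min_le_left _ _).trans (min_le_right _ _))
  have herr3 : 2 * (J + 1) * Hs J / (N : ℝ) ≤ ε / 4 := herr.trans (min_le_right _ _)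
  have hHJ0 : (0 : ℝ) ≤ Hs J := Nat.cast_nonneg _
  -- a scale without a drop
  obtain ⟨r, hr, hdrop⟩ : ∃ r < J, ms Z (Hs r) N - ms Z (Hs (r + 1)) N ≤ 1 / J := by
    by_contra hno
    push Not at hno
    have h2 : ∑ r ∈ range J, (1 / (J : ℝ)) < ∑ r ∈ range J, (ms Z (Hs r) N - ms Z (Hs (r + 1)) N) := by
      apply sum_lt_sum_of_nonempty
      · rw [nonempty_range_iff]
        have : 0 < J := by exact_mod_cast hJ0
        omega
      · intro r hr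
        exact hno r (mem_range.1 hr)
    rw [sum_range_sub', sum_const, card_range, nsmul_eq_mul, mul_one_div, div_self hJ0.ne'] at h2
    have h3 : ms Z (Hs 0) N ≤ 1 := by
      unfold ms
      refine (le_abs_self _).trans (Av_bd zero_le_one (fun n => ?_) N)
      rw [abs_of_nonneg (sq_nonneg _)]
      exact sq_le_one' hZ _ _
    have h4 := ms_nn (Z := Z) (Hs J) N
    linarith
  have hrJ : Hs (r + 1) ≤ Hs J := hHmono (show r + 1 ≤ J by omega)
  have hrJr : (Hs (r + 1) : ℝ) ≤ Hs J := by exact_mod_cast hrJ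
  have hfrac : (Hs (r + 1) : ℝ) / N ≤ 2 * (J + 1) * Hs J / (N : ℝ) / 2 := by
    rw [div_div, div_le_div_iff₀ hN0 (by positivity)]
    have : (Hs (r + 1) : ℝ) ≤ (J + 1) * Hs J := by nlinarith
    nlinarith
  have hstep := step hZ (hH1 r) ht1 (hq1 (Hs r)) hN1 (ε' := ε') (by
    rw [← hHr]
    have h2 := hcon r hr (fun n => ((starRingEnd ℂ) (AH Z (Hs (r + 1)) n)) ^ 2) (SC_sq hZ (hHκ r))
    exact not_lt.1 h2) (D := D) (by
    rw [← hHr]
    linarith)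
  rw [← hHr] at hstep
  have h2 : ms Z (Hs (r + 1)) N ≤ ε / 4 := by
    have h3 : ms Z (Hs (r + 1)) N ^ 2 ≤ (ε / 4) ^ 2 := by
      have h4 : 2 * (Hs (r + 1) : ℝ) / N = 2 * ((Hs (r + 1) : ℝ) / N) := by ring
      rw [h4] at hstep
      nlinarith
    exact abs_le_of_sq_le_sq' h3 (by positivity) |>.2
  -- the rest of the chain
  have hchain : ∀ s, r + 1 + s ≤ J → ms Z (Hs (r + 1 + s)) N ≤ ms Z (Hs (r + 1)) N + s * (Hs J / N) := by
    intro s
    induction s with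
    | zero => intro _; simp
    | succ s ih =>
      intro hs
      have h3 := ih (by omega)
      have h4 := ms_mono hZ (hH1 (r + 1 + s)) (Nat.mul_pos ht1 (hq1 (Hs (r + 1 + s)))) N
      rw [← hHr] at h4
      have h5 : (Hs (r + 1 + s + 1) : ℝ) / N ≤ Hs J / N := by
        apply div_le_div_of_nonneg_right _ hN0.le
        exact_mod_cast hHmono hs
      have e : r + 1 + (s + 1) = r + 1 + s + 1 := rfl
      rw [e]
      push_cast
      linarith
  have h3 := hchain (J - (r + 1)) (by omega)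
  rw [show r + 1 + (J - (r + 1)) = J by omega] at h3
  have h4 : ((J - (r + 1) : ℕ) : ℝ) * (Hs J / N) ≤ ε / 4 := by
    have h5 : ((J - (r + 1) : ℕ) : ℝ) ≤ J := by exact_mod_cast Nat.sub_le _ _
    calc ((J - (r + 1) : ℕ) : ℝ) * (Hs J / N) ≤ J * (Hs J / N) := mul_le_mul_of_nonneg_right h5 (by positivity)
      _ ≤ 2 * (J + 1) * Hs J / (N : ℝ) := by
          rw [← mul_div_assoc]
          apply div_le_div_of_nonneg_right _ hN0.le
          nlinarith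
      _ ≤ ε / 4 := herr3
  have h5 : ε < ms Z (Hs J) N := hNE
  linarith

theorem small_av {Z : ℕ → ℂ} (hZ : ∀ n, ‖Z n‖ ≤ 1) (hQ : QP Z) (ε : ℝ) (hε : 0 < ε) :
    ∃ H : ℕ, 1 ≤ H ∧ UD {N | ε < Av N (fun n => ‖AH Z H n‖)} ε := by
  obtain ⟨H, hH, h1⟩ := small_ms hZ hQ (min (ε ^ 2) ε) (lt_min (by positivity) hε)
  refine ⟨H, hH, (h1.sub ?_).le (min_le_right _ _)⟩
  intro N hN
  have hN' : ε < Av N (fun n => ‖AH Z H n‖) := hN
  have h2 := Av_sqrt (φ := fun n => ‖AH Z H n‖) N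
  show min (ε ^ 2) ε < ms Z H N
  refine lt_of_le_of_lt (min_le_left _ _) ?_
  unfold ms
  refine lt_of_lt_of_le ?_ h2
  nlinarith

lemma AH_cmp {Z : ℕ → ℂ} (hZ : ∀ n, ‖Z n‖ ≤ 1) {H K : ℕ} (hH : 1 ≤ H) (hK : 1 ≤ K) (n : ℕ) :
    ‖AH Z K n‖ ≤ (∑ h ∈ range K, ‖AH Z H (n + h)‖) / K + 2 * H / K := by
  have hHc : (H : ℂ) ≠ 0 := by
    have : H ≠ 0 := by omega
    exact_mod_cast this
  have hKc : (K : ℂ) ≠ 0 := by
    have : K ≠ 0 := by omega
    exact_mod_cast this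
  have hH0 : (0 : ℝ) < H := by exact_mod_cast hH
  have hK0 : (0 : ℝ) < K := by exact_mod_cast hK
  have e1 : (∑ h ∈ range K, AH Z H (n + h)) / K = (∑ l ∈ range H, AH Z K (n + l)) / H := by
    unfold AH
    rw [← sum_div, ← sum_div, div_div, div_div, mul_comm (H : ℂ), sum_comm]
    congr 1
    refine sum_congr rfl fun l _ => sum_congr rfl fun h _ => ?_
    congr 1
    ring
  have e2 : AH Z K n = (∑ h ∈ range K, AH Z H (n + h)) / K - (∑ l ∈ range H, (AH Z K (n + l) - AH Z K n)) / H := by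
    rw [e1, sum_sub_distrib, sum_const, card_range, nsmul_eq_mul, sub_div, mul_div_cancel_left₀ _ hHc]
    ring
  rw [e2]
  refine (norm_sub_le _ _).trans (add_le_add ?_ ?_)
  · rw [norm_div, Complex.norm_natCast]
    exact div_le_div_of_nonneg_right (norm_sum_le _ _) hK0.le
  · rw [norm_div, Complex.norm_natCast, div_le_iff₀ hH0]
    refine (norm_sum_le _ _).trans ?_
    calc ∑ l ∈ range H, ‖AH Z K (n + l) - AH Z K n‖ ≤ ∑ l ∈ range H, 2 * (H : ℝ) / K := by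
          apply sum_le_sum
          intro l hl
          refine (AH_lip hZ l n).trans ?_
          apply div_le_div_of_nonneg_right _ hK0.le
          have : (l : ℝ) ≤ H := by exact_mod_cast (mem_range.1 hl).le
          linarith
      _ = 2 * H / K * H := by rw [sum_const, card_range, nsmul_eq_mul, mul_comm]

lemma Av_cmp {Z : ℕ → ℂ} (hZ : ∀ n, ‖Z n‖ ≤ 1) {H K N : ℕ} (hH : 1 ≤ H) (hK : 1 ≤ K) (hKN : K ≤ N) :
    Av N (fun n => ‖AH Z K n‖) ≤ 2 * Av (2 * N) (fun n => ‖AH Z H n‖) + 2 * H / K := by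
  have hK0 : (0 : ℝ) < K := by exact_mod_cast hK
  have hN0 : (0 : ℝ) < N := by exact_mod_cast (hK.trans hKN)
  unfold Av
  push_cast
  have e : 2 * ((∑ n ∈ range (2 * N), ‖AH Z H n‖) / (2 * (N : ℝ))) = (∑ n ∈ range (2 * N), ‖AH Z H n‖) / N := by
    field_simp
  rw [e, div_add' _ _ _ hN0.ne']
  apply div_le_div_of_nonneg_right _ hN0.le
  calc ∑ n ∈ range N, ‖AH Z K n‖ ≤ ∑ n ∈ range N, ((∑ h ∈ range K, ‖AH Z H (n + h)‖) / K + 2 * H / K) :=
        sum_le_sum fun n _ => AH_cmp hZ hH hK n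
    _ = (∑ h ∈ range K, ∑ n ∈ range N, ‖AH Z H (n + h)‖) / K + 2 * H / K * N := by
        rw [sum_add_distrib, ← sum_div, sum_comm, sum_const, card_range, nsmul_eq_mul, mul_comm (N : ℝ)]
    _ ≤ (∑ h ∈ range K, ∑ n ∈ range (2 * N), ‖AH Z H n‖) / K + 2 * H / K * N := by
        apply add_le_add _ le_rfl
        apply div_le_div_of_nonneg_right _ hK0.le
        apply sum_le_sum
        intro h hh
        rw [mem_range] at hh
        have h1 : ∑ n ∈ range N, ‖AH Z H (n + h)‖ = ∑ n ∈ Ico h (N + h), ‖AH Z H n‖ := by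
          rw [sum_Ico_eq_sum_range]
          rw [Nat.add_sub_cancel]
          exact sum_congr rfl fun n _ => by rw [add_comm]
        rw [h1]
        apply sum_le_sum_of_subset_of_nonneg
        · intro n hn
          rw [mem_Ico] at hn
          rw [mem_range]
          omega
        · intro n _ _
          exact norm_nonneg _
    _ = ∑ n ∈ range (2 * N), ‖AH Z H n‖ + 2 * H / K * N := by
        rw [sum_const, card_range, nsmul_eq_mul, mul_div_cancel_left₀ _ hK0.ne']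

/-- all long windows -/
theorem all_K {Z : ℕ → ℂ} (hZ : ∀ n, ‖Z n‖ ≤ 1) (hS : ∀ ε : ℝ, 0 < ε → ∃ H : ℕ, 1 ≤ H ∧
      UD {N | ε < Av N (fun n => ‖AH Z H n‖)} ε) (ε : ℝ) (hε : 0 < ε) :
    ∃ K₀ : ℕ, UD {N | ∃ K : ℕ, K₀ ≤ K ∧ K ≤ N ∧ ε < Av N (fun n => ‖AH Z K n‖)} ε := by
  obtain ⟨H, hH, h1⟩ := hS (ε / 4) (by positivity)
  obtain ⟨K₀, hK₀⟩ := exists_nat_ge (4 * H / ε)
  refine ⟨K₀ + 1, ((h1.two (by positivity)).sub ?_).le (by linarith)⟩
  rintro N ⟨K, hK1, hK2, hK3⟩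
  show ε / 4 < Av (2 * N) (fun n => ‖AH Z H n‖)
  have hK : 1 ≤ K := by omega
  have hK0 : (0 : ℝ) < K := by exact_mod_cast hK
  have h2 := Av_cmp hZ hH hK hK2
  have h3 : 2 * (H : ℝ) / K ≤ ε / 2 := by
    have h4 : 4 * (H : ℝ) / ε ≤ K := hK₀.trans (by exact_mod_cast (by omega : K₀ ≤ K))
    rw [div_le_iff₀ hε] at h4
    rw [div_le_iff₀ hK0]
    linarith
  linarith

/-- windows whose length tends to infinity -/
theorem grow {Z : ℕ → ℂ} (hS : ∀ ε : ℝ, 0 < ε →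
      ∃ K₀ : ℕ, UD {N | ∃ K : ℕ, K₀ ≤ K ∧ K ≤ N ∧ ε < Av N (fun n => ‖AH Z K n‖)} ε)
    (K : ℕ → ℕ) (hK : Tendsto K atTop atTop) (ε : ℝ) (hε : 0 < ε) :
    LZ {N | K N ≤ N ∧ ε < Av N (fun n => ‖AH Z (K N) n‖)} := by
  rw [LZ_UD]
  intro η hη
  obtain ⟨K₀, h1⟩ := hS (min ε (η / 2)) (lt_min hε (by positivity))
  obtain ⟨N₀, hN₀⟩ := eventually_atTop.1 (hK.eventually_ge_atTop K₀)
  refine h1.mono ⟨N₀, fun N hN hNE => ?_⟩ (lt_of_le_of_lt (min_le_right _ _) (by linarith))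
  exact ⟨K N, hN₀ N hN, hNE.1, lt_of_le_of_lt (min_le_left _ _) hNE.2⟩

end Pool.Agent.P8H6.Irw
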