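import Pool.Agent.Y842.EL.Dens

/-!
# Sets of small upper logarithmic density
-/

set_option autoImplicit false

namespace Pool.Agent.P8H6.Irw

open Finset Filter Topology
open Pool.Agent.Y958.U (LZ)
open Pool.Agent.Y304.U (ind sE LZ_iff sE_nonneg ind_nonneg ind_le)
open Pool.Agent.Y842.EL (LZ_eps sE_mono sE_union LZ_mono LZ_pull LZ_diag')

/-- the upper logarithmic density is at most `ε` (in a strong form) -/
def UD (E : Set ℕ) (ε : ℝ) : Prop := ∃ X₀ : ℕ, ∀ X : ℕ, X₀ ≤ X → sE E X ≤ ε * Real.log X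

lemma LZ_UD (E : Set ℕ) : LZ E ↔ ∀ ε : ℝ, 0 < ε → UD E ε := LZ_eps E

lemma log_nn (X : ℕ) : 0 ≤ Real.log (X : ℝ) := Real.log_natCast_nonneg X

lemma UD.mono {E F : Set ℕ} {ε ε' : ℝ} (h : UD F ε) (hEF : ∃ N₀ : ℕ, ∀ n, N₀ ≤ n → n ∈ E → n ∈ F) (hε : ε < ε') :
    UD E ε' := by
  classical
  obtain ⟨X₀, h1⟩ := h
  obtain ⟨N₀, h2⟩ := hEF
  -- the small elements
  obtain ⟨C, hC⟩ : ∃ C : ℝ, C = ∑ n ∈ Icc 1 N₀, (1 : ℝ) / n := ⟨_, rfl⟩
  have hC0 : 0 ≤ C := by rw [hC]; exact sum_nonneg fun _ _ => by positivity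
  obtain ⟨X₁, hX₁⟩ := eventually_atTop.1 ((Real.tendsto_log_atTop.comp tendsto_natCast_atTop_atTop).eventually_ge_atTop
    (C / (ε' - ε)))
  refine ⟨max X₀ (max X₁ N₀), fun X hX => ?_⟩
  have hX0 : X₀ ≤ X := le_trans (le_max_left _ _) hX
  have hX1 : X₁ ≤ X := le_trans (le_trans (le_max_left _ _) (le_max_right _ _)) hX
  have hXN : N₀ ≤ X := le_trans (le_trans (le_max_right _ _) (le_max_right _ _)) hX
  have h3 := h1 X hX0
  have h4 : C / (ε' - ε) ≤ Real.log X := hX₁ X hX1
  rw [div_le_iff₀ (by linarith)] at h4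
  have h5 : sE E X ≤ sE F X + C := by
    unfold sE
    have h6 : ∑ n ∈ Icc 1 X, ind E n / (n : ℝ) ≤ ∑ n ∈ Icc 1 X, (ind F n / (n : ℝ) + if n ∈ Icc 1 N₀ then (1 : ℝ) / n else 0) := by
      refine sum_le_sum fun n hn => ?_
      rw [mem_Icc] at hn
      by_cases hn0 : n ∈ Icc 1 N₀
      · rw [if_pos hn0]
        have h7 : ind E n / (n : ℝ) ≤ 1 / n := div_le_div_of_nonneg_right (ind_le E n) (Nat.cast_nonneg n)
        have h8 : 0 ≤ ind F n / (n : ℝ) := div_nonneg (ind_nonneg F n) (Nat.cast_nonneg n)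
        linarith
      · rw [if_neg hn0, add_zero]
        apply div_le_div_of_nonneg_right _ (Nat.cast_nonneg n)
        have h7 : N₀ ≤ n := by
          rw [mem_Icc] at hn0
          omega
        unfold ind
        by_cases h8 : n ∈ E
        · rw [if_pos h8, if_pos (h2 n h7 h8)]
        · rw [if_neg h8]
          split_ifs <;> norm_num
    refine h6.trans ?_
    rw [sum_add_distrib]
    apply add_le_add le_rfl
    rw [← sum_filter, hC]
    apply sum_le_sum_of_subset_of_nonneg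
    · intro n hn
      exact (mem_filter.1 hn).2
    · intro n _ _
      positivity
  linarith

lemma UD.le {E : Set ℕ} {ε ε' : ℝ} (h : UD E ε) (hε : ε ≤ ε') : UD E ε' := by
  obtain ⟨X₀, h1⟩ := h
  exact ⟨X₀, fun X hX => (h1 X hX).trans (mul_le_mul_of_nonneg_right hε (log_nn X))⟩

lemma UD.sub {E F : Set ℕ} {ε : ℝ} (h : UD F ε) (hEF : E ⊆ F) : UD E ε := by
  obtain ⟨X₀, h1⟩ := h
  exact ⟨X₀, fun X hX => (sE_mono X fun n _ hn => hEF hn).trans (h1 X hX)⟩

lemma UD.union {E F : Set ℕ} {ε ε' : ℝ} (h : UD E ε) (h' : UD F ε') : UD (E ∪ F) (ε + ε') := by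
  obtain ⟨X₀, h1⟩ := h
  obtain ⟨X₁, h2⟩ := h'
  refine ⟨max X₀ X₁, fun X hX => ?_⟩
  have h3 := h1 X (le_trans (le_max_left _ _) hX)
  have h4 := h2 X (le_trans (le_max_right _ _) hX)
  have h5 := sE_union E F X
  rw [add_mul]
  linarith

lemma UD.empty {ε : ℝ} (hε : 0 ≤ ε) : UD (∅ : Set ℕ) ε := by
  refine ⟨0, fun X _ => ?_⟩
  have : sE (∅ : Set ℕ) X = 0 := by
    unfold sE ind
    simp
  rw [this]
  exact mul_nonneg hε (log_nn X)

lemma UD.fin {ι : Type} (s : Finset ι) (E : ι → Set ℕ) (ε : ι → ℝ) (h : ∀ i ∈ s, UD (E i) (ε i)) :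
    UD {n | ∃ i ∈ s, n ∈ E i} (∑ i ∈ s, ε i) := by
  classical
  induction s using Finset.induction_on with
  | empty =>
    rw [sum_empty]
    exact (UD.empty le_rfl).sub (fun n hn => by obtain ⟨i, hi, _⟩ := hn; simp at hi)
  | insert i s hi ih =>
    rw [sum_insert hi]
    refine ((h i (mem_insert_self _ _)).union (ih fun j hj => h j (mem_insert_of_mem hj))).sub ?_
    rintro n ⟨j, hj, hn⟩
    rcases mem_insert.1 hj with rfl | hj
    · exact Or.inl hn
    · exact Or.inr ⟨j, hj, hn⟩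

/-- pull back by `N ↦ 2 N` -/
lemma UD.two {E : Set ℕ} {ε : ℝ} (h : UD E ε) (hε : 0 < ε) : UD {N | 2 * N ∈ E} (3 * ε) := by
  classical
  obtain ⟨X₀, h1⟩ := h
  refine ⟨max X₀ 4, fun X hX => ?_⟩
  have hX0 : X₀ ≤ X := le_trans (le_max_left _ _) hX
  have hX4 : 4 ≤ X := le_trans (le_max_right _ _) hX
  have h2 := h1 (2 * X) (by omega)
  have h3 : sE {N | 2 * N ∈ E} X ≤ 2 * sE E (2 * X) := by
    unfold sE
    rw [mul_sum]
    have h4 : ∑ n ∈ Icc 1 X, ind {N | 2 * N ∈ E} n / (n : ℝ) =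
        ∑ n ∈ Icc 1 X, 2 * (ind E (2 * n) / ((2 * n : ℕ) : ℝ)) := by
      refine sum_congr rfl fun n hn => ?_
      have hn1 : (1 : ℝ) ≤ n := by exact_mod_cast (mem_Icc.1 hn).1
      have h5 : ind {N | 2 * N ∈ E} n = ind E (2 * n) := rfl
      rw [h5]
      push_cast
      field_simp
    rw [h4, ← sum_image (f := fun m : ℕ => 2 * (ind E m / (m : ℝ))) (g := fun n : ℕ => 2 * n) (s := Icc 1 X)
      (fun x _ y _ hxy => by
        simp only at hxy
        omega)]
    apply sum_le_sum_of_subset_of_nonneg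
    · intro m hm
      rw [mem_image] at hm
      obtain ⟨n, hn, rfl⟩ := hm
      rw [mem_Icc] at hn ⊢
      omega
    · intro m _ _
      exact mul_nonneg (by norm_num) (div_nonneg (ind_nonneg E m) (Nat.cast_nonneg m))
  have h5 : Real.log ((2 * X : ℕ) : ℝ) ≤ 3 / 2 * Real.log X := by
    have hXr : (4 : ℝ) ≤ X := by exact_mod_cast hX4
    have h6 : Real.log ((2 * X : ℕ) : ℝ) = Real.log 2 + Real.log X := by
      push_cast
      exact Real.log_mul (by norm_num) (by linarith)
    have h7 : Real.log 4 ≤ Real.log X := Real.log_le_log (by norm_num) hXr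
    have h8 : Real.log 4 = 2 * Real.log 2 := by
      rw [show (4 : ℝ) = 2 ^ 2 by norm_num, Real.log_pow]; norm_num
    rw [h6]
    linarith
  nlinarith

/-- diagonal sets -/
lemma glue (E : ℕ → Set ℕ) {ε : ℝ} (hε : 0 < ε) (h : ∀ j, ¬ UD (E j) ε) :
    ∃ J : ℕ → ℕ, Tendsto J atTop atTop ∧ ¬ LZ {N | N ∈ E (J N)} := by
  classical
  have h1 : ∀ j X₀ : ℕ, ∃ X : ℕ, X₀ ≤ X ∧ ε * Real.log X < sE (E j) X := by
    intro j X₀
    have h2 := h j
    unfold UD at h2
    push Not at h2
    exact h2 X₀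
  choose g hg1 hg2 using h1
  set T : ℕ → ℕ := fun x => ⌈Real.exp ((2 / ε) * (1 + Real.log x))⌉₊ + x + 1 with hT
  set X : ℕ → ℕ := fun j => Nat.rec (g 0 1) (fun j x => g (j + 1) (T x)) j with hX
  have hX1 : ∀ j, X (j + 1) = g (j + 1) (T (X j)) := fun j => rfl
  have hXT : ∀ j, T (X j) ≤ X (j + 1) := fun j => by rw [hX1]; exact hg1 _ _
  have hXs : ∀ j, X j < X (j + 1) := fun j => by
    have := hXT j
    rw [hT] at this
    simp only at this
    omega
  have hmono : StrictMono X := strictMono_nat_of_lt_succ hXs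
  have hXE : ∀ j, ε * Real.log (X j) < sE (E j) (X j) := by
    intro j
    cases j with
    | zero => exact hg2 0 1
    | succ j => rw [hX1]; exact hg2 _ _
  have hex : ∀ N : ℕ, ∃ j, N ≤ X j := fun N => ⟨N, hmono.id_le N⟩
  set J : ℕ → ℕ := fun N => Nat.find (hex N) with hJ
  refine ⟨J, ?_, ?_⟩
  · apply tendsto_atTop_atTop.2
    intro b
    refine ⟨X b + 1, fun N hN => ?_⟩
    rw [hJ]
    simp only
    rw [Nat.le_find_iff]
    intro m hm hN2
    have := hmono.monotone hm.le
    omega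
  · intro hLZ
    rw [LZ_eps] at hLZ
    obtain ⟨X₀, h2⟩ := hLZ (ε / 3) (by positivity)
    obtain ⟨j, hj⟩ : ∃ j : ℕ, X₀ ≤ X j := ⟨X₀, hmono.id_le X₀⟩
    have h3 := h2 (X (j + 1)) (by have := hXs j; omega)
    have h4 := hXE (j + 1)
    -- the elements between `X j` and `X (j + 1)`
    have h5 : sE (E (j + 1)) (X (j + 1)) ≤ sE {N | N ∈ E (J N)} (X (j + 1)) + (1 + Real.log (X j)) := by
      have h6 : ∑ n ∈ Icc 1 (X j), (1 : ℝ) / n ≤ 1 + Real.log (X j) := by
        have := harmonic_le_one_add_log (X j)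
        rw [harmonic_eq_sum_Icc] at this
        push_cast at this
        simpa [one_div] using this
      refine le_trans ?_ (add_le_add le_rfl h6)
      unfold sE
      have h7 : ∑ n ∈ Icc 1 (X (j + 1)), ind (E (j + 1)) n / (n : ℝ) ≤
          ∑ n ∈ Icc 1 (X (j + 1)), (ind {N | N ∈ E (J N)} n / (n : ℝ) + if n ∈ Icc 1 (X j) then (1 : ℝ) / n else 0) := by
        refine sum_le_sum fun n hn => ?_
        rw [mem_Icc] at hn
        by_cases hn0 : n ∈ Icc 1 (X j)
        · rw [if_pos hn0]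
          have h7 : ind (E (j + 1)) n / (n : ℝ) ≤ 1 / n := div_le_div_of_nonneg_right (ind_le _ n) (Nat.cast_nonneg n)
          have h8 : 0 ≤ ind {N | N ∈ E (J N)} n / (n : ℝ) := div_nonneg (ind_nonneg _ n) (Nat.cast_nonneg n)
          linarith
        · rw [if_neg hn0, add_zero]
          apply div_le_div_of_nonneg_right _ (Nat.cast_nonneg n)
          have h8 : X j < n := by
            rw [mem_Icc] at hn0
            omega
          have h9 : J n = j + 1 := by
            rw [hJ]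
            simp only
            rw [Nat.find_eq_iff]
            refine ⟨hn.2, fun m hm => ?_⟩
            have := hmono.monotone (by omega : m ≤ j)
            omega
          unfold ind
          by_cases h10 : n ∈ E (j + 1)
          · rw [if_pos h10, if_pos (by show n ∈ E (J n); rw [h9]; exact h10)]
          · rw [if_neg h10]
            split_ifs <;> norm_num
      refine h7.trans ?_
      rw [sum_add_distrib]
      apply add_le_add le_rfl
      rw [← sum_filter]
      apply sum_le_sum_of_subset_of_nonneg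
      · intro n hn
        exact (mem_filter.1 hn).2
      · intro n _ _
        positivity
    -- the size of `X (j + 1)`
    have h6 : (2 / ε) * (1 + Real.log (X j)) ≤ Real.log (X (j + 1)) := by
      have h7 : Real.exp ((2 / ε) * (1 + Real.log (X j))) ≤ X (j + 1) := by
        refine (Nat.le_ceil _).trans ?_
        have h8 := hXT j
        rw [hT] at h8
        simp only at h8
        exact_mod_cast (by omega : ⌈Real.exp ((2 / ε) * (1 + Real.log (X j)))⌉₊ ≤ X (j + 1))
      have h8 := Real.log_le_log (Real.exp_pos _) h7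
      rwa [Real.log_exp] at h8
    have h7 : 1 + Real.log (X j) ≤ ε / 2 * Real.log (X (j + 1)) := by
      rw [div_mul_eq_mul_div, div_le_iff₀ hε] at h6
      linarith
    have h8 : 0 < 1 + Real.log (X j) := by
      have := log_nn (X j)
      linarith
    have h9 : 0 < Real.log (X (j + 1)) := by
      by_contra hcon
      rw [not_lt] at hcon
      nlinarith
    nlinarith

end Pool.Agent.P8H6.Irw
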