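import Pool.Agent.P8H6.Irw.Abs

/-!
# Functions with local products, factorials
-/

set_option autoImplicit false

namespace Pool.Agent.P8H6.Irw

open Finset Filter Topology
open Pool.Agent.Y958.TC
open Pool.Agent.Y958.U (LZ)
open Pool.Agent.P8H6.Irr

/-- products of values of flipping functions at linear forms -/
def Loc (φ : ℕ → ℝ) : Prop := ∃ (k : ℕ) (f : Fin k → ℕ → ℤ) (a b : Fin k → ℕ), (∀ i, Flip (f i)) ∧ (∀ i, 1 ≤ a i) ∧
  ∀ n, φ n = pt f a b n

lemma Loc.one : Loc (fun _ => 1) :=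
  ⟨0, fun _ _ => 0, fun _ => 1, fun _ => 0, fun i => i.elim0, fun i => i.elim0, fun n => by unfold pt; simp⟩

lemma Loc.val {f : ℕ → ℤ} (hf : Flip f) {a : ℕ} (ha : 1 ≤ a) (b : ℕ) : Loc (fun n => (f (a * n + b) : ℝ)) :=
  ⟨1, fun _ => f, fun _ => a, fun _ => b, fun _ => hf, fun _ => ha, fun n => by unfold pt; simp⟩

lemma Loc.mul {φ ψ : ℕ → ℝ} (h : Loc φ) (h' : Loc ψ) : Loc (fun n => φ n * ψ n) := by
  obtain ⟨k, f, a, b, h1, h2, h3⟩ := h
  obtain ⟨l, g, c, d, g1, g2, g3⟩ := h'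
  refine ⟨k + l, Fin.append f g, Fin.append a c, Fin.append b d, ?_, ?_, ?_⟩
  · intro i
    refine Fin.addCases (fun i => ?_) (fun i => ?_) i
    · rw [Fin.append_left]; exact h1 i
    · rw [Fin.append_right]; exact g1 i
  · intro i
    refine Fin.addCases (fun i => ?_) (fun i => ?_) i
    · rw [Fin.append_left]; exact h2 i
    · rw [Fin.append_right]; exact g2 i
  · intro n
    show φ n * ψ n = _
    rw [h3, g3]
    unfold pt
    rw [Fin.prod_univ_add]
    congr 1
    · refine prod_congr rfl fun i _ => ?_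
      rw [Fin.append_left, Fin.append_left, Fin.append_left]
    · refine prod_congr rfl fun i _ => ?_
      rw [Fin.append_right, Fin.append_right, Fin.append_right]

lemma Loc.prod {ι : Type} (s : Finset ι) (φ : ι → ℕ → ℝ) (h : ∀ i ∈ s, Loc (φ i)) :
    Loc (fun n => ∏ i ∈ s, φ i n) := by
  classical
  induction s using Finset.induction_on with
  | empty => simpa using Loc.one
  | insert i s hi ih =>
    have h1 := (h i (mem_insert_self _ _)).mul (ih fun j hj => h j (mem_insert_of_mem hj))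
    have e : (fun n => ∏ j ∈ insert i s, φ j n) = fun n => φ i n * ∏ j ∈ s, φ j n := by
      funext n
      rw [prod_insert hi]
    rw [e]
    exact h1

/-- functions all of whose products with their translates are local -/
structure QL (U : ℕ → ℝ) : Prop where
  bd : ∀ n, |U n| ≤ 1
  loc : ∀ h h' : ℕ, Loc (fun n => U (n + h) * U (n + h'))

lemma QL.one : QL (fun _ => 1) := ⟨fun _ => by simp, fun _ _ => by simpa using Loc.one⟩

lemma QL.mul {U V : ℕ → ℝ} (hU : QL U) (hV : QL V) : QL (fun n => U n * V n) := by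
  refine ⟨fun n => mul_le' (hU.bd n) (hV.bd n), fun h h' => ?_⟩
  have h1 := (hU.loc h h').mul (hV.loc h h')
  have e : (fun n => U (n + h) * V (n + h) * (U (n + h') * V (n + h'))) =
      fun n => U (n + h) * U (n + h') * (V (n + h) * V (n + h')) := by
    funext n
    ring
  rw [e]
  exact h1

lemma QL.prod {ι : Type} (s : Finset ι) (U : ι → ℕ → ℝ) (h : ∀ i ∈ s, QL (U i)) :
    QL (fun n => ∏ i ∈ s, U i n) := by
  classical
  induction s using Finset.induction_on with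
  | empty => simpa using QL.one
  | insert i s hi ih =>
    have h1 := (h i (mem_insert_self _ _)).mul (ih fun j hj => h j (mem_insert_of_mem hj))
    have e : (fun n => ∏ j ∈ insert i s, U j n) = fun n => U i n * ∏ j ∈ s, U j n := by
      funext n
      rw [prod_insert hi]
    rw [e]
    exact h1

lemma QL.val {f : ℕ → ℤ} (hf : Flip f) {a : ℕ} (ha : 1 ≤ a) (b : ℕ) : QL (fun n => (f (a * n + b) : ℝ)) := by
  refine ⟨fun n => by exact_mod_cast hf.bd _, fun h h' => ?_⟩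
  have h1 := (Loc.val hf ha (a * h + b)).mul (Loc.val hf ha (a * h' + b))
  have e : (fun n => (f (a * (n + h) + b) : ℝ) * (f (a * (n + h') + b) : ℝ)) =
      fun n => (f (a * n + (a * h + b)) : ℝ) * (f (a * n + (a * h' + b)) : ℝ) := by
    funext n
    rw [show a * (n + h) + b = a * n + (a * h + b) by ring, show a * (n + h') + b = a * n + (a * h' + b) by ring]
  rw [e]
  exact h1

/-- the products `f 1 f 2 ... f n` -/
noncomputable def fac (f : ℕ → ℤ) (n : ℕ) : ℝ := ∏ j ∈ Icc 1 n, (f j : ℝ)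

lemma fac_sq {f : ℕ → ℤ} (hf : ∀ n, 1 ≤ n → |f n| = 1) (n : ℕ) : fac f n * fac f n = 1 := by
  unfold fac
  rw [← prod_mul_distrib]
  apply prod_eq_one
  intro j hj
  have h1 := hf j (mem_Icc.1 hj).1
  have h2 : (f j) * (f j) = 1 := by
    rw [← abs_mul_abs_self, h1]; rfl
  exact_mod_cast h2

lemma fac_add (f : ℕ → ℤ) (n d : ℕ) : fac f (n + d) = fac f n * ∏ i ∈ range d, (f (n + 1 + i) : ℝ) := by
  induction d with
  | zero => simp
  | succ d ih =>
    rw [prod_range_succ, ← mul_assoc, ← ih]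
    unfold fac
    rw [← add_assoc, prod_Icc_succ_top (by omega)]
    congr 3
    ring

lemma fac_loc {f : ℕ → ℤ} (hF : Flip f) (hf : ∀ n, 1 ≤ n → |f n| = 1) {a : ℕ} (ha : 1 ≤ a) (b h d : ℕ) :
    Loc (fun n => fac f (a * (n + h) + b) * fac f (a * (n + (h + d)) + b)) := by
  have h1 : ∀ n, fac f (a * (n + h) + b) * fac f (a * (n + (h + d)) + b) =
      ∏ i ∈ range (a * d), (f (a * n + (a * h + b + 1 + i)) : ℝ) := by
    intro n
    rw [show a * (n + (h + d)) + b = (a * (n + h) + b) + a * d by ring, fac_add f (a * (n + h) + b) (a * d),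
      ← mul_assoc, fac_sq hf, one_mul]
    refine prod_congr rfl fun i _ => ?_
    congr 2
    ring
  rw [funext h1]
  exact Loc.prod _ _ fun i _ => Loc.val hF ha _

lemma QL.fac {f : ℕ → ℤ} (hF : Flip f) (hf : ∀ n, 1 ≤ n → |f n| = 1) {a : ℕ} (ha : 1 ≤ a) (b : ℕ) :
    QL (fun n => fac f (a * n + b)) := by
  refine ⟨fun n => ?_, fun h h' => ?_⟩
  · have h1 := fac_sq hf (a * n + b)
    have h2 : |Irw.fac f (a * n + b)| * |Irw.fac f (a * n + b)| = 1 := by rw [← abs_mul, h1, abs_one]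
    nlinarith [abs_nonneg (Irw.fac f (a * n + b))]
  · rcases Nat.le_total h h' with hh | hh
    · obtain ⟨d, rfl⟩ := Nat.exists_eq_add_of_le hh
      exact fac_loc hF hf ha b h d
    · obtain ⟨d, rfl⟩ := Nat.exists_eq_add_of_le hh
      have h1 := fac_loc hF hf ha b h' d
      have e : (fun n => Irw.fac f (a * (n + (h' + d)) + b) * Irw.fac f (a * (n + h') + b)) =
          fun n => Irw.fac f (a * (n + h') + b) * Irw.fac f (a * (n + (h' + d)) + b) := by
        funext n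
        ring
      rw [e]
      exact h1

lemma pos_min {ι : Type} (s : Finset ι) (κ : ι → ℝ) (h : ∀ i ∈ s, 0 < κ i) : ∃ κ₀ : ℝ, 0 < κ₀ ∧ ∀ i ∈ s, κ₀ ≤ κ i := by
  classical
  induction s using Finset.induction_on with
  | empty => exact ⟨1, one_pos, fun i hi => absurd hi (notMem_empty i)⟩
  | insert i s hi ih =>
    obtain ⟨κ₀, h1, h2⟩ := ih fun j hj => h j (mem_insert_of_mem hj)
    refine ⟨min κ₀ (κ i), lt_min h1 (h i (mem_insert_self _ _)), fun j hj => ?_⟩
    rcases mem_insert.1 hj with rfl | hj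
    · exact min_le_right _ _
    · exact (min_le_left _ _).trans (h2 j hj)

/-- the sequence with the phase -/
noncomputable def ZZ (U : ℕ → ℝ) (α : ℝ) (n : ℕ) : ℂ := (U n : ℂ) * ee (α * n)

lemma ZZ_le {U : ℕ → ℝ} (hU : QL U) (α : ℝ) (n : ℕ) : ‖ZZ U α n‖ ≤ 1 := by
  unfold ZZ
  rw [norm_mul, ee_norm, mul_one, Complex.norm_real, Real.norm_eq_abs]
  exact hU.bd n

theorem ZZ_QP {U : ℕ → ℝ} (hU : QL U) {α : ℝ} (hα : Irrational α) : QP (ZZ U α) := by
  classical
  intro H hH ε hε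
  have hH0 : (0 : ℝ) < H := by exact_mod_cast hH
  have h2α : Irrational (2 * α) := by exact_mod_cast hα.natCast_mul (by norm_num : (2 : ℕ) ≠ 0)
  have h1 : ∀ p : ℕ × ℕ, ∃ κ : ℝ, 0 < κ ∧ UD {N | ∃ w : ℕ → ℂ, SC κ w ∧
      (ε / H ^ 2) * N < ‖∑ n ∈ range N, w n * (((U (n + p.1) * U (n + p.2) : ℝ) : ℂ) * ee (2 * α * n))‖} (ε / H ^ 2) := by
    intro p
    obtain ⟨k, f, a, b, hf, ha, hφ⟩ := hU.loc p.1 p.2
    obtain ⟨κ, hκ, h2⟩ := fin_cx f a b (2 * α) hf ha h2α (ε / H ^ 2) (by positivity)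
    refine ⟨κ, hκ, h2.sub ?_⟩
    rintro N ⟨w, hw, hN⟩
    refine ⟨w, hw, ?_⟩
    convert hN using 6
    exact (hφ _).symm
  choose κ hκ h2 using h1
  obtain ⟨κ₀, hκ₀, h3⟩ := pos_min (range H ×ˢ range H) κ fun p _ => hκ p
  refine ⟨κ₀, hκ₀, ?_⟩
  have h4 := UD.fin (range H ×ˢ range H) (fun p => {N | ∃ w : ℕ → ℂ, SC (κ p) w ∧
      (ε / H ^ 2) * N < ‖∑ n ∈ range N, w n * (((U (n + p.1) * U (n + p.2) : ℝ) : ℂ) * ee (2 * α * n))‖})
      (fun _ => ε / H ^ 2) (fun p _ => h2 p)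
  rw [sum_const, card_product, card_range, nsmul_eq_mul] at h4
  have e1 : (((H * H : ℕ) : ℝ)) * (ε / H ^ 2) = ε := by
    push_cast
    field_simp
  rw [e1] at h4
  refine h4.sub ?_
  rintro N ⟨w, hw, hN⟩
  by_contra hcon
  simp only [Set.mem_ofPred_eq, not_exists, not_and, not_lt] at hcon
  -- the expansion of the square
  have e2 : ∀ n, w n * (AH (ZZ U α) H n) ^ 2 = (∑ p ∈ range H ×ˢ range H,
      (w n * ee (α * (p.1 + p.2))) * (((U (n + p.1) * U (n + p.2) : ℝ) : ℂ) * ee (2 * α * n))) / (H : ℂ) ^ 2 := by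
    intro n
    unfold AH
    rw [div_pow, sq (∑ h ∈ range H, ZZ U α (n + h)), sum_mul_sum, ← sum_product', ← mul_div_assoc, mul_sum]
    congr 1
    refine sum_congr rfl fun p _ => ?_
    unfold ZZ
    have h5 : ee (α * ((n + p.1 : ℕ) : ℝ)) * ee (α * ((n + p.2 : ℕ) : ℝ)) =
        ee (α * (p.1 + p.2)) * ee (2 * α * n) := by
      rw [← ee_add, ← ee_add]
      congr 1
      push_cast
      ring
    calc w n * ((U (n + p.1) : ℂ) * ee (α * ((n + p.1 : ℕ) : ℝ)) * ((U (n + p.2) : ℂ) * ee (α * ((n + p.2 : ℕ) : ℝ)))) =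
          w n * ((U (n + p.1) : ℂ) * (U (n + p.2) : ℂ)) *
            (ee (α * ((n + p.1 : ℕ) : ℝ)) * ee (α * ((n + p.2 : ℕ) : ℝ))) := by ring
      _ = _ := by
          rw [h5]
          push_cast
          ring
  have e3 : ∑ n ∈ range N, w n * (AH (ZZ U α) H n) ^ 2 = (∑ p ∈ range H ×ˢ range H, ∑ n ∈ range N,
      (w n * ee (α * (p.1 + p.2))) * (((U (n + p.1) * U (n + p.2) : ℝ) : ℂ) * ee (2 * α * n))) / (H : ℂ) ^ 2 := by
    rw [sum_congr rfl fun n _ => e2 n, ← sum_div, sum_comm]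
  have h5 : ‖∑ n ∈ range N, w n * (AH (ZZ U α) H n) ^ 2‖ ≤ ε * N := by
    rw [e3, norm_div, norm_pow, Complex.norm_natCast, div_le_iff₀ (by positivity)]
    refine (norm_sum_le _ _).trans ?_
    calc ∑ p ∈ range H ×ˢ range H, ‖∑ n ∈ range N,
          (w n * ee (α * (p.1 + p.2))) * (((U (n + p.1) * U (n + p.2) : ℝ) : ℂ) * ee (2 * α * n))‖ ≤
          ∑ p ∈ range H ×ˢ range H, (ε / H ^ 2) * N := by
          apply sum_le_sum
          intro p hp
          apply hcon p hp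
          refine ⟨fun n => ?_, fun n => ?_⟩
          · rw [norm_mul, ee_norm, mul_one]
            exact hw.1 n
          · rw [← sub_mul, norm_mul, ee_norm, mul_one]
            exact (hw.2 n).trans (h3 p hp)
      _ = ε * N := by
          rw [sum_const, card_product, card_range, nsmul_eq_mul]
          push_cast
          field_simp
      _ ≤ ε * N * (H : ℝ) ^ 2 := by
          have hH1 : (1 : ℝ) ≤ (H : ℝ) ^ 2 := one_le_pow₀ (by exact_mod_cast hH)
          exact le_mul_of_one_le_right (by positivity) hH1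
  linarith

/-- **no irrational frequency in short windows** -/
theorem ZZ_all {U : ℕ → ℝ} (hU : QL U) {α : ℝ} (hα : Irrational α) (ε : ℝ) (hε : 0 < ε) :
    ∃ K₀ : ℕ, UD {N | ∃ K : ℕ, K₀ ≤ K ∧ K ≤ N ∧ ε < Av N (fun n => ‖AH (ZZ U α) K n‖)} ε :=
  all_K (ZZ_le hU α) (small_av (ZZ_le hU α) (ZZ_QP hU hα)) ε hε

/-- windows of growing length -/
theorem ZZ_grow {U : ℕ → ℝ} (hU : QL U) {α : ℝ} (hα : Irrational α) (K : ℕ → ℕ) (hK : Tendsto K atTop atTop)
    (ε : ℝ) (hε : 0 < ε) : LZ {N | K N ≤ N ∧ ε < Av N (fun n => ‖AH (ZZ U α) (K N) n‖)} :=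
  grow (ZZ_all hU hα) K hK ε hε

end Pool.Agent.P8H6.Irw
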