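import Pool.Agent.P8H6.Irw.Two
import Pool.Agent.P8H6.Irw.Dens
import Pool.Agent.P8H6.Irr.Sup

/-!
# Irrational phases with weights: the uniform form
-/

set_option autoImplicit false

namespace Pool.Agent.P8H6.Irw

open Finset Filter Topology
open Pool.Agent.Y958.TC
open Pool.Agent.Y958.U (LZ S_AVC QQ)
open Pool.Agent.Y842.EL (LZ_mono)
open Pool.Agent.P8H6.Irr

/-- slowly varying weights -/
def SW (κ : ℝ) (w : ℕ → ℝ) : Prop := (∀ n, |w n| ≤ 1) ∧ ∀ n, |w (n + 1) - w n| ≤ κ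

/-- complex slowly varying weights -/
def SC (κ : ℝ) (w : ℕ → ℂ) : Prop := (∀ n, ‖w n‖ ≤ 1) ∧ ∀ n, ‖w (n + 1) - w n‖ ≤ κ

section real

variable {k : ℕ} (f : Fin k → ℕ → ℤ) (a b : Fin k → ℕ) (α θ : ℝ)

theorem irw_gen (hf : ∀ i, Flip (f i)) (ha : ∀ i, 1 ≤ a i) (hα : Irrational α)
    (w : ℕ → ℕ → ℝ) (hw : ∀ N n, |w N n| ≤ 1)
    (hsv : Tendsto (fun N => Av N (fun n => |w N (n + 1) - w N n|)) atTop (𝓝 0))
    (δ : ℝ) (hδ : 0 < δ) : LZ {N | δ < |Av N (fun n => w N n * psi f a b α θ n)|} := by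
  have h1 : Irrational (Int.fract α) := by
    unfold Int.fract
    exact hα.sub_intCast _
  have h2 : 0 < Int.fract α := by
    refine lt_of_le_of_ne (Int.fract_nonneg α) (fun h => ?_)
    exact h1.ne_zero h.symm
  have h3 := irw f a b (Int.fract α) θ s_avc hf ha h2 (Int.fract_lt_one α) h1 w hw hsv δ hδ
  have h4 : psi f a b α θ = psi f a b (Int.fract α) θ := funext fun n => psi_fract f a b α θ n
  rw [h4]
  exact h3

theorem fin_real (hf : ∀ i, Flip (f i)) (ha : ∀ i, 1 ≤ a i) (hα : Irrational α) (ε : ℝ) (hε : 0 < ε) :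
    ∃ κ : ℝ, 0 < κ ∧ UD {N | ∃ w : ℕ → ℝ, SW κ w ∧ ε < |Av N (fun n => w n * psi f a b α θ n)|} ε := by
  classical
  by_contra hcon
  push Not at hcon
  obtain ⟨J, hJ, hE⟩ := glue (fun j => {N | ∃ w : ℕ → ℝ, SW (1 / ((j : ℝ) + 1)) w ∧
    ε < |Av N (fun n => w n * psi f a b α θ n)|}) hε (fun j => hcon _ (by positivity))
  apply hE
  set P : ℕ → (ℕ → ℝ) → Prop := fun N w => SW (1 / ((J N : ℝ) + 1)) w ∧
    ε < |Av N (fun n => w n * psi f a b α θ n)| with hP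
  set w : ℕ → ℕ → ℝ := fun N => if h : ∃ w, P N w then h.choose else fun _ => 0 with hw
  have hw1 : ∀ N, SW (1 / ((J N : ℝ) + 1)) (w N) := by
    intro N
    rw [hw]
    simp only
    split_ifs with h
    · exact h.choose_spec.1
    · refine ⟨fun n => by simp, fun n => ?_⟩
      simp only [sub_self, abs_zero]
      positivity
  have h1 := irw_gen f a b α θ hf ha hα w (fun N => (hw1 N).1) (by
    have h2 : Tendsto (fun N => 1 / ((J N : ℝ) + 1)) atTop (𝓝 0) :=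
      tendsto_one_div_add_atTop_nhds_zero_nat.comp hJ
    apply squeeze_zero (fun N => Av_nonneg N fun n => abs_nonneg _) _ h2
    intro N
    refine (le_abs_self _).trans (Av_bd (by positivity) (fun n => ?_) N)
    rw [abs_abs]
    exact (hw1 N).2 n) ε hε
  refine LZ_mono ?_ h1
  intro N hN
  have hN' : ∃ w, P N w := hN
  show ε < |Av N (fun n => w N n * psi f a b α θ n)|
  have e : w N = hN'.choose := by
    rw [hw]
    simp only
    rw [dif_pos hN']
  rw [e]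
  exact hN'.choose_spec.2

end real

/-- `e(x)` -/
noncomputable def ee (x : ℝ) : ℂ := Complex.exp (2 * Real.pi * Complex.I * x)

lemma ee_norm (x : ℝ) : ‖ee x‖ = 1 := by
  unfold ee
  rw [show 2 * Real.pi * Complex.I * x = ((2 * Real.pi * x : ℝ) : ℂ) * Complex.I by push_cast; ring]
  exact Complex.norm_exp_ofReal_mul_I _

lemma ee_add (x y : ℝ) : ee (x + y) = ee x * ee y := by
  unfold ee
  rw [← Complex.exp_add]
  congr 1
  push_cast
  ring

lemma ee_ph (x : ℝ) : ee x = ((ph 0 x : ℝ) : ℂ) + ((ph (-(1 / 4)) x : ℝ) : ℂ) * Complex.I := by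
  unfold ee ph
  have h1 : Complex.exp (2 * Real.pi * Complex.I * x) =
      ((Real.cos (2 * Real.pi * x) : ℝ) : ℂ) + ((Real.sin (2 * Real.pi * x) : ℝ) : ℂ) * Complex.I := by
    rw [Complex.ofReal_cos, Complex.ofReal_sin, ← Complex.exp_mul_I]
    congr 1
    push_cast
    ring
  have h2 : Real.cos (2 * Real.pi * (x + -(1 / 4))) = Real.sin (2 * Real.pi * x) := by
    rw [show 2 * Real.pi * (x + -(1 / 4)) = 2 * Real.pi * x - Real.pi / 2 by ring, Real.cos_sub_pi_div_two]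
  rw [h1, h2, add_zero]

section cx

variable {k : ℕ} (f : Fin k → ℕ → ℤ) (a b : Fin k → ℕ) (α : ℝ)

/-- the product of the values -/
noncomputable def pt (n : ℕ) : ℝ := ∏ i, (f i (a i * n + b i) : ℝ)

theorem fin_cx (hf : ∀ i, Flip (f i)) (ha : ∀ i, 1 ≤ a i) (hα : Irrational α) (ε : ℝ) (hε : 0 < ε) :
    ∃ κ : ℝ, 0 < κ ∧ UD {N | ∃ w : ℕ → ℂ, SC κ w ∧
      ε * N < ‖∑ n ∈ range N, w n * ((pt f a b n : ℂ) * ee (α * n))‖} ε := by
  obtain ⟨κ₁, hκ₁, h1⟩ := fin_real f a b α 0 hf ha hα (ε / 4) (by positivity)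
  obtain ⟨κ₂, hκ₂, h2⟩ := fin_real f a b α (-(1 / 4)) hf ha hα (ε / 4) (by positivity)
  refine ⟨min κ₁ κ₂, lt_min hκ₁ hκ₂, ?_⟩
  refine ((h1.union h2).sub ?_).le (by linarith)
  rintro N ⟨w, hw, hN⟩
  by_contra hcon
  rw [Set.mem_union, not_or] at hcon
  obtain ⟨hc1, hc2⟩ := hcon
  simp only [Set.mem_ofPred_eq, not_exists, not_and, not_lt] at hc1 hc2
  have hre : SW (min κ₁ κ₂) (fun n => (w n).re) :=
    ⟨fun n => (Complex.abs_re_le_norm _).trans (hw.1 n), fun n => by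
      rw [← Complex.sub_re]
      exact (Complex.abs_re_le_norm _).trans (hw.2 n)⟩
  have him : SW (min κ₁ κ₂) (fun n => (w n).im) :=
    ⟨fun n => (Complex.abs_im_le_norm _).trans (hw.1 n), fun n => by
      rw [← Complex.sub_im]
      exact (Complex.abs_im_le_norm _).trans (hw.2 n)⟩
  have hm1 : ∀ v, SW (min κ₁ κ₂) v → SW κ₁ v := fun v hv => ⟨hv.1, fun n => (hv.2 n).trans (min_le_left _ _)⟩
  have hm2 : ∀ v, SW (min κ₁ κ₂) v → SW κ₂ v := fun v hv => ⟨hv.1, fun n => (hv.2 n).trans (min_le_right _ _)⟩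
  have hsum : ∀ φ : ℕ → ℝ, |Av N φ| ≤ ε / 4 → |∑ n ∈ range N, φ n| ≤ ε / 4 * N := by
    intro φ hφ
    rcases Nat.eq_zero_or_pos N with h | h
    · subst h; simp
    · have hN0 : (0 : ℝ) < N := by exact_mod_cast h
      unfold Av at hφ
      rwa [abs_div, Nat.abs_cast, div_le_iff₀ hN0] at hφ
  have a1 := hsum _ (hc1 _ (hm1 _ hre))
  have a2 := hsum _ (hc1 _ (hm1 _ him))
  have a3 := hsum _ (hc2 _ (hm2 _ hre))
  have a4 := hsum _ (hc2 _ (hm2 _ him))
  have e1 : ∀ n, w n * ((pt f a b n : ℂ) * ee (α * n)) =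
      (((w n).re * psi f a b α 0 n - (w n).im * psi f a b α (-(1 / 4)) n : ℝ) : ℂ) +
      (((w n).im * psi f a b α 0 n + (w n).re * psi f a b α (-(1 / 4)) n : ℝ) : ℂ) * Complex.I := by
    intro n
    rw [ee_ph]
    unfold psi pt
    apply Complex.ext
    · simp
      ring
    · simp
      ring
  rw [sum_congr rfl fun n _ => e1 n, sum_add_distrib, ← sum_mul, ← Complex.ofReal_sum, ← Complex.ofReal_sum,
    sum_sub_distrib, sum_add_distrib] at hN
  have h3 := norm_add_le (((∑ n ∈ range N, (w n).re * psi f a b α 0 n -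
    ∑ n ∈ range N, (w n).im * psi f a b α (-(1 / 4)) n : ℝ)) : ℂ)
    ((((∑ n ∈ range N, (w n).im * psi f a b α 0 n +
    ∑ n ∈ range N, (w n).re * psi f a b α (-(1 / 4)) n : ℝ)) : ℂ) * Complex.I)
  rw [norm_mul, Complex.norm_I, mul_one, Complex.norm_real, Complex.norm_real, Real.norm_eq_abs,
    Real.norm_eq_abs] at h3
  have h4 := abs_sub (∑ n ∈ range N, (w n).re * psi f a b α 0 n) (∑ n ∈ range N, (w n).im * psi f a b α (-(1 / 4)) n)
  have h5 := abs_add_le (∑ n ∈ range N, (w n).im * psi f a b α 0 n)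
    (∑ n ∈ range N, (w n).re * psi f a b α (-(1 / 4)) n)
  linarith

end cx

end Pool.Agent.P8H6.Irw
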