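import Pool.Agent.P8H6.Irw.Fin

/-!
# Short averages of a sequence whose square has no local correlation with slowly varying weights
-/

set_option autoImplicit false

namespace Pool.Agent.P8H6.Irw

open Finset Filter Topology
open Pool.Agent.Y958.TC

/-- averages over windows -/
noncomputable def AH (Z : ℕ → ℂ) (H n : ℕ) : ℂ := (∑ h ∈ range H, Z (n + h)) / H

section

variable {Z : ℕ → ℂ} (hZ : ∀ n, ‖Z n‖ ≤ 1)

include hZ

lemma AH_le (H n : ℕ) : ‖AH Z H n‖ ≤ 1 := by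
  unfold AH
  rcases Nat.eq_zero_or_pos H with h | h
  · subst h; simp
  have hH : (0 : ℝ) < H := by exact_mod_cast h
  rw [norm_div, Complex.norm_natCast, div_le_one hH]
  refine (norm_sum_le _ _).trans ((sum_le_sum fun i _ => hZ _).trans (le_of_eq ?_))
  simp

lemma AH_lip1 {H : ℕ} (n : ℕ) : ‖AH Z H (n + 1) - AH Z H n‖ ≤ 2 / H := by
  unfold AH
  rw [← sub_div, norm_div, Complex.norm_natCast]
  apply div_le_div_of_nonneg_right _ (Nat.cast_nonneg _)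
  have h1 := sum_range_succ (fun h => Z (n + h)) H
  have h2 := sum_range_succ' (fun h => Z (n + h)) H
  have h3 : ∑ h ∈ range H, Z (n + 1 + h) = ∑ h ∈ range H, Z (n + (h + 1)) := by
    refine sum_congr rfl fun h _ => ?_
    congr 1
    ring
  have h4 : ∑ h ∈ range H, Z (n + 1 + h) - ∑ h ∈ range H, Z (n + h) = Z (n + H) - Z (n + 0) := by
    rw [h3]
    linear_combination h1 - h2
  rw [h4]
  have h5 := norm_sub_le (Z (n + H)) (Z (n + 0))
  linarith [hZ (n + H), hZ (n + 0)]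

lemma AH_lip {H : ℕ} (s n : ℕ) : ‖AH Z H (n + s) - AH Z H n‖ ≤ 2 * s / H := by
  induction s with
  | zero => simp
  | succ s ih =>
    have h1 := AH_lip1 hZ (H := H) (n + s)
    have h2 := norm_add_le (AH Z H (n + s + 1) - AH Z H (n + s)) (AH Z H (n + s) - AH Z H n)
    rw [sub_add_sub_cancel] at h2
    have e : 2 * ((s + 1 : ℕ) : ℝ) / H = 2 / H + 2 * s / H := by
      push_cast
      ring
    rw [e]
    rw [← add_assoc]
    linarith

omit hZ in
lemma AH_mul {H m : ℕ} (hH : 1 ≤ H) (n : ℕ) :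
    AH Z (m * H) n = (∑ j ∈ range m, AH Z H (n + j * H)) / m := by
  have hHc : (H : ℂ) ≠ 0 := by
    have : H ≠ 0 := by omega
    exact_mod_cast this
  have h1 : ∀ m : ℕ, ∑ h ∈ range (m * H), Z (n + h) = H * ∑ j ∈ range m, AH Z H (n + j * H) := by
    intro m
    induction m with
    | zero => simp
    | succ m ih =>
      rw [Nat.succ_mul, sum_range_add, ih, sum_range_succ, mul_add]
      congr 1
      unfold AH
      rw [mul_div_cancel₀ _ hHc]
      refine sum_congr rfl fun h _ => ?_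
      congr 1
      ring
  unfold AH at h1 ⊢
  rw [h1]
  push_cast
  rw [mul_comm (m : ℂ), mul_div_mul_left _ _ hHc]

end

/-- the variance identity -/
lemma var_id (v : ℕ → ℂ) {m : ℕ} (hm : 1 ≤ m) (c : ℂ) (hc : c = (∑ j ∈ range m, v j) / m) :
    ∑ j ∈ range m, ‖v j - c‖ ^ 2 = ∑ j ∈ range m, ‖v j‖ ^ 2 - m * ‖c‖ ^ 2 := by
  have hm0 : (m : ℂ) ≠ 0 := by
    have : m ≠ 0 := by omega
    exact_mod_cast this
  have h1 : ∀ j, ‖v j - c‖ ^ 2 = ‖v j‖ ^ 2 + ‖c‖ ^ 2 - 2 * (v j * (starRingEnd ℂ) c).re := by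
    intro j
    rw [← Complex.normSq_eq_norm_sq, ← Complex.normSq_eq_norm_sq, ← Complex.normSq_eq_norm_sq,
      Complex.normSq_sub]
  rw [sum_congr rfl fun j _ => h1 j, sum_sub_distrib, sum_add_distrib, ← mul_sum, ← Complex.re_sum, ← sum_mul]
  have h2 : ∑ j ∈ range m, v j = m * c := by rw [hc, mul_div_cancel₀ _ hm0]
  rw [h2]
  have h3 : ((m : ℂ) * c * (starRingEnd ℂ) c).re = m * ‖c‖ ^ 2 := by
    rw [mul_assoc, Complex.mul_conj, Complex.normSq_eq_norm_sq]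
    rw [← Complex.ofReal_natCast, ← Complex.ofReal_mul, Complex.ofReal_re]
  rw [h3, sum_const, card_range, nsmul_eq_mul]
  ring

/-- shifts of averages -/
lemma Av_sh {φ : ℕ → ℝ} (h0 : ∀ n, 0 ≤ φ n) (h1 : ∀ n, φ n ≤ 1) (N s : ℕ) :
    Av N (fun n => φ (n + s)) ≤ Av N φ + s / N := by
  unfold Av
  rw [← add_div]
  apply div_le_div_of_nonneg_right _ (Nat.cast_nonneg _)
  have e1 : ∑ n ∈ range N, φ (n + s) = ∑ n ∈ range (s + N), φ n - ∑ n ∈ range s, φ n := by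
    rw [sum_range_add]
    rw [add_sub_cancel_left]
    exact sum_congr rfl fun n _ => by rw [add_comm]
  have e2 : ∑ n ∈ range (s + N), φ n = ∑ n ∈ range N, φ n + ∑ n ∈ range s, φ (N + n) := by
    rw [add_comm s N, sum_range_add]
  have h3 : ∑ n ∈ range s, φ (N + n) ≤ s := by
    refine (sum_le_sum fun n _ => h1 _).trans (le_of_eq ?_)
    simp
  have h4 : 0 ≤ ∑ n ∈ range s, φ n := sum_nonneg fun n _ => h0 n
  rw [e1, e2]
  linarith

/-- shifts of sums, complex -/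
lemma sum_sh {φ : ℕ → ℂ} (h1 : ∀ n, ‖φ n‖ ≤ 1) (N s : ℕ) :
    ‖∑ n ∈ range N, φ (n + s)‖ ≤ ‖∑ n ∈ range N, φ n‖ + 2 * s := by
  have e1 : ∑ n ∈ range N, φ (n + s) = ∑ n ∈ range (s + N), φ n - ∑ n ∈ range s, φ n := by
    rw [sum_range_add]
    rw [add_sub_cancel_left]
    exact sum_congr rfl fun n _ => by rw [add_comm]
  have e2 : ∑ n ∈ range (s + N), φ n = ∑ n ∈ range N, φ n + ∑ n ∈ range s, φ (N + n) := by
    rw [add_comm s N, sum_range_add]
  have h3 : ‖∑ n ∈ range s, φ (N + n)‖ ≤ s := by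
    refine (norm_sum_le _ _).trans ((sum_le_sum fun n _ => h1 _).trans (le_of_eq ?_))
    simp
  have h4 : ‖∑ n ∈ range s, φ n‖ ≤ s := by
    refine (norm_sum_le _ _).trans ((sum_le_sum fun n _ => h1 _).trans (le_of_eq ?_))
    simp
  rw [e1, e2]
  have h5 := norm_sub_le (∑ n ∈ range N, φ n + ∑ n ∈ range s, φ (N + n)) (∑ n ∈ range s, φ n)
  have h6 := norm_add_le (∑ n ∈ range N, φ n) (∑ n ∈ range s, φ (N + n))
  linarith

/-- mean squares of the averages over windows -/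
noncomputable def ms (Z : ℕ → ℂ) (H N : ℕ) : ℝ := Av N (fun n => ‖AH Z H n‖ ^ 2)

section

variable {Z : ℕ → ℂ} (hZ : ∀ n, ‖Z n‖ ≤ 1)

lemma ms_nn (H N : ℕ) : 0 ≤ ms Z H N := Av_nonneg N fun n => sq_nonneg _

include hZ

lemma sq_le_one' (H n : ℕ) : ‖AH Z H n‖ ^ 2 ≤ 1 := by
  have h1 := AH_le hZ H n
  have h2 := norm_nonneg (AH Z H n)
  nlinarith

/-- the average variance -/
lemma ms_var {H m : ℕ} (hH : 1 ≤ H) (hm : 1 ≤ m) (N : ℕ) :
    ∑ j ∈ range m, Av N (fun n => ‖AH Z H (n + j * H) - AH Z (m * H) n‖ ^ 2) ≤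
      m * (ms Z H N - ms Z (m * H) N + ((m * H : ℕ) : ℝ) / N) := by
  have h1 : ∀ n, ∑ j ∈ range m, ‖AH Z H (n + j * H) - AH Z (m * H) n‖ ^ 2 =
      ∑ j ∈ range m, ‖AH Z H (n + j * H)‖ ^ 2 - m * ‖AH Z (m * H) n‖ ^ 2 := fun n =>
    var_id _ hm _ (AH_mul hH n)
  rw [← Av_sum, funext h1, Av_sub, Av_sum, Av_smul]
  have h2 : ∑ j ∈ range m, Av N (fun n => ‖AH Z H (n + j * H)‖ ^ 2) ≤
      ∑ j ∈ range m, (ms Z H N + ((m * H : ℕ) : ℝ) / N) := by
    apply sum_le_sum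
    intro j hj
    rw [mem_range] at hj
    have h3 := Av_sh (φ := fun n => ‖AH Z H n‖ ^ 2) (fun n => sq_nonneg _) (fun n => sq_le_one' hZ H n) N (j * H)
    refine h3.trans ?_
    unfold ms
    apply add_le_add le_rfl
    apply div_le_div_of_nonneg_right _ (Nat.cast_nonneg _)
    exact_mod_cast Nat.mul_le_mul_right _ hj.le
  rw [sum_const, card_range, nsmul_eq_mul] at h2
  unfold ms at h2 ⊢
  linarith

lemma ms_mono {H m : ℕ} (hH : 1 ≤ H) (hm : 1 ≤ m) (N : ℕ) :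
    ms Z (m * H) N ≤ ms Z H N + ((m * H : ℕ) : ℝ) / N := by
  have h1 := ms_var hZ hH hm N
  have h2 : 0 ≤ ∑ j ∈ range m, Av N (fun n => ‖AH Z H (n + j * H) - AH Z (m * H) n‖ ^ 2) :=
    sum_nonneg fun j _ => Av_nonneg N fun n => sq_nonneg _
  have hm0 : (0 : ℝ) < m := by exact_mod_cast hm
  have h3 := h2.trans h1
  have h4 := nonneg_of_mul_nonneg_right h3 hm0
  linarith

omit hZ in
lemma Av_sqrt {φ : ℕ → ℝ} (N : ℕ) : Av N φ ^ 2 ≤ Av N (fun n => φ n ^ 2) := by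
  unfold Av
  rcases Nat.eq_zero_or_pos N with h | h
  · subst h; simp
  have hN : (0 : ℝ) < N := by exact_mod_cast h
  have h1 := sq_sum_le_card_mul_sum_sq (s := range N) (f := φ)
  rw [card_range] at h1
  rw [div_pow, div_le_div_iff₀ (by positivity) hN]
  nlinarith

/-- **one step**: if the mean squares do not drop much, then the fourth moment is small -/
lemma step {H t r N : ℕ} (hH : 1 ≤ H) (ht : 1 ≤ t) (hr : 1 ≤ r) (hN : 1 ≤ N) {ε' : ℝ}
    (hw : ‖∑ n ∈ range N, ((starRingEnd ℂ) (AH Z (t * r * H) n)) ^ 2 * (AH Z H n) ^ 2‖ ≤ ε' * N)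
    {D : ℝ} (hD : ms Z H N - ms Z (t * r * H) N + ((t * r * H : ℕ) : ℝ) / N ≤ D) :
    ms Z (t * r * H) N ^ 2 ≤ 2 * Real.sqrt (t * D) + 4 / t + ε' + 2 * ((t * r * H : ℕ) : ℝ) / N := by
  obtain ⟨m, hm⟩ : ∃ m, m = t * r := ⟨_, rfl⟩
  rw [← hm] at hw hD ⊢
  have hm1 : 1 ≤ m := by rw [hm]; exact Nat.mul_pos ht hr
  obtain ⟨K, hK⟩ : ∃ K, K = m * H := ⟨_, rfl⟩
  rw [← hK] at hw hD ⊢
  have hK1 : 1 ≤ K := by rw [hK]; exact Nat.mul_pos hm1 hH
  have hN0 : (0 : ℝ) < N := by exact_mod_cast hN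
  have ht0 : (0 : ℝ) < t := by exact_mod_cast ht
  have hr0 : (0 : ℝ) < r := by exact_mod_cast hr
  have hK0 : (0 : ℝ) < K := by exact_mod_cast hK1
  -- the choice of `j`
  have h1 : ∑ j ∈ range r, Av N (fun n => ‖AH Z H (n + j * H) - AH Z K n‖ ^ 2) ≤ m * D := by
    have h2 := ms_var hZ hH hm1 N
    rw [← hK] at h2
    refine le_trans (sum_le_sum_of_subset_of_nonneg ?_ fun j _ _ => Av_nonneg N fun n => sq_nonneg _) (h2.trans ?_)
    · apply range_mono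
      rw [hm]
      exact Nat.le_mul_of_pos_left _ ht
    · exact mul_le_mul_of_nonneg_left hD (Nat.cast_nonneg _)
  obtain ⟨j, hj, hj2⟩ : ∃ j ∈ range r, Av N (fun n => ‖AH Z H (n + j * H) - AH Z K n‖ ^ 2) ≤ t * D := by
    by_contra hcon
    push Not at hcon
    have h2 : ∑ j ∈ range r, t * D < ∑ j ∈ range r, Av N (fun n => ‖AH Z H (n + j * H) - AH Z K n‖ ^ 2) :=
      sum_lt_sum_of_nonempty (by rw [nonempty_range_iff]; omega) hcon
    rw [sum_const, card_range, nsmul_eq_mul] at h2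
    have h3 : (r : ℝ) * (t * D) = m * D := by
      rw [hm]
      push_cast
      ring
    linarith
  rw [mem_range] at hj
  obtain ⟨s, hs⟩ : ∃ s, s = j * H := ⟨_, rfl⟩
  rw [← hs] at hj2
  have hsK : t * s ≤ K := by
    rw [hK, hm, hs]
    calc t * (j * H) ≤ t * (r * H) := Nat.mul_le_mul_left _ (Nat.mul_le_mul_right _ hj.le)
      _ = t * r * H := by ring
  have hsKr : (t : ℝ) * s ≤ K := by exact_mod_cast hsK
  have hs1 : (s : ℝ) ≤ K := by
    have : s ≤ t * s := Nat.le_mul_of_pos_left _ ht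
    exact_mod_cast this.trans hsK
  -- the three comparisons
  set A : ℕ → ℂ := AH Z H with hA
  set A' : ℕ → ℂ := AH Z K with hA'
  have hAle : ∀ n, ‖A n‖ ≤ 1 := AH_le hZ H
  have hA'le : ∀ n, ‖A' n‖ ≤ 1 := AH_le hZ K
  have hsq : ∀ x y : ℂ, ‖x‖ ≤ 1 → ‖y‖ ≤ 1 → ‖x ^ 2 - y ^ 2‖ ≤ 2 * ‖x - y‖ := by
    intro x y hx hy
    rw [show x ^ 2 - y ^ 2 = (x + y) * (x - y) by ring, norm_mul]
    apply mul_le_mul_of_nonneg_right _ (norm_nonneg _)
    have := norm_add_le x y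
    linarith
  have hsqle : ∀ x : ℂ, ‖x‖ ≤ 1 → ‖x ^ 2‖ ≤ 1 := by
    intro x hx
    rw [norm_pow]
    have := norm_nonneg x
    nlinarith
  have hconj : ∀ x : ℂ, ‖(starRingEnd ℂ) x‖ = ‖x‖ := fun x => Complex.norm_conj x
  have c3 : ‖∑ n ∈ range N, ((starRingEnd ℂ) (A' (n + s))) ^ 2 * (A (n + s)) ^ 2‖ ≤ ε' * N + 2 * K := by
    have h2 := sum_sh (φ := fun n => ((starRingEnd ℂ) (A' n)) ^ 2 * (A n) ^ 2) (fun n => by
      rw [norm_mul]
      exact mul_le_one₀ (hsqle _ (by rw [hconj]; exact hA'le n)) (norm_nonneg _) (hsqle _ (hAle n))) N s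
    linarith
  have c2 : ‖∑ n ∈ range N, (((starRingEnd ℂ) (A' n)) ^ 2 - ((starRingEnd ℂ) (A' (n + s))) ^ 2) * (A (n + s)) ^ 2‖ ≤
      4 / t * N := by
    refine (norm_sum_le _ _).trans ?_
    calc ∑ n ∈ range N, ‖(((starRingEnd ℂ) (A' n)) ^ 2 - ((starRingEnd ℂ) (A' (n + s))) ^ 2) * (A (n + s)) ^ 2‖ ≤
          ∑ n ∈ range N, 4 / (t : ℝ) := by
          apply sum_le_sum
          intro n _
          rw [norm_mul]
          have h2 := hsq ((starRingEnd ℂ) (A' n)) ((starRingEnd ℂ) (A' (n + s))) (by rw [hconj]; exact hA'le _)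
            (by rw [hconj]; exact hA'le _)
          rw [← map_sub, hconj, norm_sub_rev (A' n)] at h2
          have h3 := AH_lip hZ (H := K) s n
          have h4 : 2 * (s : ℝ) / K ≤ 2 / t := by
            rw [div_le_div_iff₀ hK0 ht0]
            linarith
          have h5 : ‖((starRingEnd ℂ) (A' n)) ^ 2 - ((starRingEnd ℂ) (A' (n + s))) ^ 2‖ ≤ 4 / t := by
            have e : (4 : ℝ) / t = 2 * (2 / t) := by ring
            rw [e]
            refine h2.trans ?_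
            apply mul_le_mul_of_nonneg_left _ (by norm_num)
            exact h3.trans h4
          calc ‖((starRingEnd ℂ) (A' n)) ^ 2 - ((starRingEnd ℂ) (A' (n + s))) ^ 2‖ * ‖(A (n + s)) ^ 2‖ ≤
                4 / t * 1 := mul_le_mul h5 (hsqle _ (hAle _)) (norm_nonneg _) (by positivity)
            _ = 4 / t := mul_one _
      _ = 4 / t * N := by rw [sum_const, card_range, nsmul_eq_mul, mul_comm]
  have c1 : ‖∑ n ∈ range N, ((starRingEnd ℂ) (A' n)) ^ 2 * ((A' n) ^ 2 - (A (n + s)) ^ 2)‖ ≤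
      2 * Real.sqrt (t * D) * N := by
    refine (norm_sum_le _ _).trans ?_
    have h2 : ∑ n ∈ range N, ‖((starRingEnd ℂ) (A' n)) ^ 2 * ((A' n) ^ 2 - (A (n + s)) ^ 2)‖ ≤
        ∑ n ∈ range N, 2 * ‖A (n + s) - A' n‖ := by
      apply sum_le_sum
      intro n _
      rw [norm_mul]
      have h2 := hsq (A' n) (A (n + s)) (hA'le _) (hAle _)
      rw [norm_sub_rev (A' n)] at h2
      calc ‖((starRingEnd ℂ) (A' n)) ^ 2‖ * ‖(A' n) ^ 2 - (A (n + s)) ^ 2‖ ≤ 1 * (2 * ‖A (n + s) - A' n‖) :=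
            mul_le_mul (hsqle _ (by rw [hconj]; exact hA'le n)) h2 (norm_nonneg _) zero_le_one
        _ = _ := one_mul _
    refine h2.trans ?_
    rw [← mul_sum, mul_assoc]
    apply mul_le_mul_of_nonneg_left _ (by norm_num)
    have h3 := Av_sqrt (φ := fun n => ‖A (n + s) - A' n‖) N
    have h4 : Av N (fun n => ‖A (n + s) - A' n‖) ≤ Real.sqrt (t * D) := Real.le_sqrt_of_sq_le (h3.trans hj2)
    unfold Av at h4
    rwa [div_le_iff₀ hN0] at h4
  have hdec : ∀ n, ((starRingEnd ℂ) (A' n)) ^ 2 * (A' n) ^ 2 =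
      ((starRingEnd ℂ) (A' n)) ^ 2 * ((A' n) ^ 2 - (A (n + s)) ^ 2) +
      (((starRingEnd ℂ) (A' n)) ^ 2 - ((starRingEnd ℂ) (A' (n + s))) ^ 2) * (A (n + s)) ^ 2 +
      ((starRingEnd ℂ) (A' (n + s))) ^ 2 * (A (n + s)) ^ 2 := by
    intro n; ring
  have hfour : ∀ n, ((starRingEnd ℂ) (A' n)) ^ 2 * (A' n) ^ 2 = ((‖A' n‖ ^ 4 : ℝ) : ℂ) := by
    intro n
    rw [← mul_pow, mul_comm ((starRingEnd ℂ) (A' n)), Complex.mul_conj, Complex.normSq_eq_norm_sq]
    push_cast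
    ring
  have h2 : ∑ n ∈ range N, ‖A' n‖ ^ 4 ≤ (2 * Real.sqrt (t * D) + 4 / t + ε') * N + 2 * K := by
    have h3 : ‖∑ n ∈ range N, ((starRingEnd ℂ) (A' n)) ^ 2 * (A' n) ^ 2‖ = ∑ n ∈ range N, ‖A' n‖ ^ 4 := by
      rw [sum_congr rfl fun n _ => hfour n, ← Complex.ofReal_sum, Complex.norm_real, Real.norm_eq_abs,
        abs_of_nonneg (sum_nonneg fun n _ => by positivity)]
    rw [← h3, sum_congr rfl fun n _ => hdec n, sum_add_distrib, sum_add_distrib]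
    have h4 := norm_add₃_le (a := ∑ n ∈ range N, ((starRingEnd ℂ) (A' n)) ^ 2 * ((A' n) ^ 2 - (A (n + s)) ^ 2))
      (b := ∑ n ∈ range N, (((starRingEnd ℂ) (A' n)) ^ 2 - ((starRingEnd ℂ) (A' (n + s))) ^ 2) * (A (n + s)) ^ 2)
      (c := ∑ n ∈ range N, ((starRingEnd ℂ) (A' (n + s))) ^ 2 * (A (n + s)) ^ 2)
    linarith
  have h3 : ms Z K N ^ 2 ≤ Av N (fun n => ‖A' n‖ ^ 4) := by
    have h4 := Av_sqrt (φ := fun n => ‖A' n‖ ^ 2) N
    have e : (fun n => (‖A' n‖ ^ 2) ^ 2) = fun n => ‖A' n‖ ^ 4 := by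
      funext n
      ring
    rw [e] at h4
    exact h4
  refine h3.trans ?_
  unfold Av
  rw [div_le_iff₀ hN0]
  refine h2.trans (le_of_eq ?_)
  field_simp

end

end Pool.Agent.P8H6.Irw
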