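import Pool.Agent.P8H6.Irw.Wm

/-!
# Irrational phases with slowly varying weights
-/

set_option autoImplicit false

namespace Pool.Agent.P8H6.Irw

open Finset Filter Topology
open Pool.Agent.TH112.BL (Bd QD win)
open Pool.Agent.Y958.TC
open Pool.Agent.Y958.U (LZ S_AVC QQ)
open Pool.Agent.P8H6.Irr

/-- the next multiple of `p` -/
def nx (p n : ℕ) : ℕ := n + (p - n % p) % p

section sv

variable (W : ℕ → ℝ)

lemma nx_div {p : ℕ} (hp : 1 ≤ p) (n : ℕ) : nx p n / p = n / p ∨ nx p n / p = n / p + 1 := by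
  unfold nx
  have h1 := Nat.div_add_mod n p
  have h2 := Nat.mod_lt n (by omega : 0 < p)
  rcases Nat.eq_zero_or_pos (n % p) with h | h
  · left
    rw [h, Nat.sub_zero, Nat.mod_self, add_zero]
  · right
    rw [Nat.mod_eq_of_lt (by omega : p - n % p < p)]
    have : n + (p - n % p) = p * (n / p + 1) := by
      rw [mul_add, mul_one]
      omega
    rw [this, Nat.mul_div_cancel_left _ (by omega)]

lemma succ_div' {p : ℕ} (hp : 1 ≤ p) (n : ℕ) : (n + 1) / p = n / p ∨ (n + 1) / p = n / p + 1 := by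
  rw [Nat.succ_div]
  split_ifs
  · right; rfl
  · left; rfl

lemma nx_le {p : ℕ} (hp : 1 ≤ p) (n : ℕ) : |W (nx p n / p) - W (n / p)| ≤ |W (n / p + 1) - W (n / p)| := by
  rcases nx_div hp n with h | h
  · rw [h, sub_self, abs_zero]; exact abs_nonneg _
  · rw [h]

lemma succ_le' {p : ℕ} (hp : 1 ≤ p) (n : ℕ) : |W ((n + 1) / p) - W (n / p)| ≤ |W (n / p + 1) - W (n / p)| := by
  rcases succ_div' hp n with h | h
  · rw [h, sub_self, abs_zero]; exact abs_nonneg _
  · rw [h]

lemma sum_div' (D : ℕ → ℝ) (hD : ∀ n, 0 ≤ D n) {p : ℕ} (hp : 1 ≤ p) (M : ℕ) :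
    ∑ n ∈ range M, D (n / p) ≤ p * ∑ k ∈ range (M / p + 1), D k := by
  have h1 : ∀ K : ℕ, ∑ n ∈ range (p * K), D (n / p) = p * ∑ k ∈ range K, D k := by
    intro K
    induction K with
    | zero => simp
    | succ K ih =>
      rw [mul_add, mul_one, sum_range_add, ih, sum_range_succ (fun k => D k) K]
      have h2 : ∑ j ∈ range p, D ((p * K + j) / p) = ∑ j ∈ range p, D K := by
        refine sum_congr rfl fun j hj => ?_
        rw [Nat.mul_add_div (by omega), Nat.div_eq_of_lt (mem_range.1 hj), add_zero]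
      rw [h2, sum_const, card_range, nsmul_eq_mul]
      ring
  rw [← h1]
  apply sum_le_sum_of_subset_of_nonneg
  · intro n hn
    rw [mem_range] at hn ⊢
    have h2 := Nat.div_add_mod M p
    have h3 := Nat.mod_lt M (by omega : 0 < p)
    rw [mul_add, mul_one]
    omega
  · intro n _ _
    exact hD _

/-- the increments of the dilated weights are small -/
lemma slow (w : ℕ → ℕ → ℝ) (hw : ∀ N n, |w N n| ≤ 1)
    (hsv : Tendsto (fun N => Av N (fun n => |w N (n + 1) - w N n|)) atTop (𝓝 0)) {p : ℕ} (hp : 1 ≤ p) :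
    Tendsto (fun M => Av M (fun n => |w (M / p) (n / p + 1) - w (M / p) (n / p)|)) atTop (𝓝 0) := by
  have hdiv : Tendsto (fun M : ℕ => M / p) atTop atTop := by
    apply tendsto_atTop_atTop.2
    intro b
    refine ⟨b * p, fun a ha => ?_⟩
    rw [Nat.le_div_iff_mul_le (by omega)]
    exact ha
  have h1 : Tendsto (fun M : ℕ => Av (M / p) (fun n => |w (M / p) (n + 1) - w (M / p) n|) + (2 * p : ℝ) / (M : ℝ))
      atTop (𝓝 0) := by
    have h2 := (hsv.comp hdiv).add (tendsto_const_div_atTop_nhds_zero_nat (2 * p : ℝ))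
    rw [add_zero] at h2
    exact h2
  refine squeeze_zero' ?_ ?_ h1
  · filter_upwards with M
    exact Av_nonneg M fun n => abs_nonneg _
  · filter_upwards [eventually_ge_atTop p] with M hM
    obtain ⟨K, hK⟩ : ∃ K, K = M / p := ⟨_, rfl⟩
    rw [← hK]
    have hK1 : 1 ≤ K := by rw [hK]; exact (Nat.one_le_div_iff hp).2 hM
    have hK0 : (0 : ℝ) < K := by exact_mod_cast hK1
    have hM0 : (0 : ℝ) < M := by exact_mod_cast (by omega : 0 < M)
    have hpK : (p : ℝ) * K ≤ M := by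
      have : p * K ≤ M := by rw [hK]; exact Nat.mul_div_le M p
      exact_mod_cast this
    have h3 := sum_div' (fun k => |w K (k + 1) - w K k|) (fun _ => abs_nonneg _) hp M
    rw [← hK, sum_range_succ] at h3
    have h4 : |w K (K + 1) - w K K| ≤ 2 := by
      have := abs_sub (w K (K + 1)) (w K K)
      linarith [hw K (K + 1), hw K K]
    have h5 : 0 ≤ ∑ k ∈ range K, |w K (k + 1) - w K k| := sum_nonneg fun _ _ => abs_nonneg _
    have hp0 : (0 : ℝ) ≤ p := Nat.cast_nonneg p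
    unfold Av
    rw [div_le_iff₀ hM0, add_mul, div_mul_cancel₀ _ hM0.ne']
    refine h3.trans ?_
    have h6 : (p : ℝ) * ∑ k ∈ range K, |w K (k + 1) - w K k| ≤
        (∑ k ∈ range K, |w K (k + 1) - w K k|) / K * M := by
      rw [div_mul_eq_mul_div, le_div_iff₀ hK0]
      nlinarith
    nlinarith

end sv

section main

variable {k : ℕ} (f : Fin k → ℕ → ℤ) (a b : Fin k → ℕ) (α θ : ℝ)

/-- the sum over the scales, for one mean -/
lemma scales (μ : NM) (hb : ∀ i n, |f i n| ≤ 1) (ha : ∀ i, 1 ≤ a i) {A : ℕ} (hA : ∀ i, a i ≤ A) (hA1 : 1 ≤ A)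
    (h0 : 0 < α)
    (h1 : α < 1) (hα : Irrational α) (c : ℕ) (hc2 : 2 ≤ c) (hc : ∀ i, 2 * (1 + b i) ≤ c) {ε : ℝ} (hε : 0 < ε)
    (i₀ i₁ : ℕ) (hi₀ : 1 ≤ i₀) (hI : ∀ i : ℕ, i₀ ≤ i → (i : ℝ) / 2 ^ i < (ε / 30) * ε / 3) :
    ∑ i ∈ Ico i₀ i₁, (1 : ℝ) / i * ∑ p ∈ QD i (i + 1), Real.log p / 2 ^ i *
      |μ.m (fun n => GG f a b α θ p (n + (p - n % p) % p))| ≤
    ε * ∑ i ∈ Ico i₀ i₁, (1 : ℝ) / i +
      3 * (c * Real.log (Fintype.card ((Fin k → Fin A → SignType) × Fin 2)) / ((ε / 30) * ε / 3)) := by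
  classical
  haveI : NeZero A := ⟨by omega⟩
  obtain ⟨η, hη⟩ : ∃ η : ℝ, η = (ε / 30) * ε / 3 := ⟨_, rfl⟩
  rw [← hη] at hI ⊢
  have hη0 : 0 < η := by rw [hη]; positivity
  have hw0 : ∀ i, ∀ p ∈ QD i (i + 1), 0 ≤ Real.log (p : ℝ) / 2 ^ i := fun i p _ =>
    div_nonneg (Real.log_natCast_nonneg _) (by positivity)
  have hbad := bad_sum' μ (lt' f a A α) (bb α) (some ()) c (dd := dd) (bb_succ f a A h0 h1)
    (EQα μ hα h0) η hη0 i₀ i₁ (by omega)
  rw [← sum_filter_add_sum_filter_not (Ico i₀ i₁)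
    (fun i => ¬ Df μ (lt' f a A α) (bb α) (some ()) c i ≤ η * 2 ^ i / i), add_comm]
  apply add_le_add
  · rw [mul_sum]
    refine le_trans (sum_le_sum (g := fun i : ℕ => ε * ((1 : ℝ) / i)) fun i hi => ?_)
      (sum_le_sum_of_subset_of_nonneg (filter_subset _ _) fun i _ _ => by positivity)
    rw [mem_filter, not_not, mem_Ico] at hi
    rw [mul_comm ε]
    apply mul_le_mul_of_nonneg_left _ (by positivity)
    have hI' := hI i hi.1.1
    rw [hη] at hI'
    have hD := hi.2
    rw [hη] at hD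
    exact one_scale f a b α θ μ hb ha hA h0 h1 c hc2 hc hε i (by omega) hI' hD
  · have hall : ∀ i, ∑ p ∈ QD i (i + 1), Real.log p / 2 ^ i *
        |μ.m (fun n => GG f a b α θ p (n + (p - n % p) % p))| ≤ 3 := by
      intro i
      have h5 : (0 : ℝ) < 2 ^ i := by positivity
      calc ∑ p ∈ QD i (i + 1), Real.log p / 2 ^ i * |μ.m (fun n => GG f a b α θ p (n + (p - n % p) % p))| ≤
            ∑ p ∈ QD i (i + 1), Real.log p / 2 ^ i * 1 := by
            apply sum_le_sum
            intro p hp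
            apply mul_le_mul_of_nonneg_left _ (hw0 i p hp)
            have hle : ∀ n, |GG f a b α θ p (n + (p - n % p) % p)| ≤ 1 := fun n =>
              mul_le' (FF_le a b hb _ _) (ph_le _ _)
            refine (μ.abs_le ⟨1, hle⟩).trans ?_
            have h9 := μ.mono (φ := fun n => |GG f a b α θ p (n + (p - n % p) % p)|) (ψ := fun _ => 1)
              ⟨1, fun n => by rw [abs_abs]; exact hle n⟩ (Pool.Agent.TH112.BL.Bd.const 1) hle
            rw [μ.one] at h9
            exact h9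
        _ = (∑ p ∈ QD i (i + 1), Real.log (p : ℝ)) / 2 ^ i := by
            rw [sum_div]
            exact sum_congr rfl fun p _ => mul_one _
        _ ≤ 3 := by
            rw [div_le_iff₀ h5]
            exact Pool.Agent.TH575.CW.theta_QD i
    refine le_trans (sum_le_sum fun i _ =>
      mul_le_mul_of_nonneg_left (hall i) (by positivity : (0 : ℝ) ≤ 1 / (i : ℝ))) ?_
    rw [← sum_mul, mul_comm]
    exact mul_le_mul_of_nonneg_left hbad (by norm_num)

end main

end Pool.Agent.P8H6.Irw
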