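import Pool.Agent.P8H6.Irw.Fac

/-!
# One exceptional set
-/

set_option autoImplicit false

namespace Pool.Agent.P8H6.Irw

open Finset Filter Topology
open Pool.Agent.Y958.TC
open Pool.Agent.Y958.U (LZ)
open Pool.Agent.Y842.EL (LZ_mono LZ_diag')
open Pool.Agent.P8H6.Irr

/-- the sum over a window -/
noncomputable def wn (Z : ℕ → ℂ) (K n : ℕ) : ℝ := ‖∑ h ∈ range K, Z (n + h)‖

lemma wn_le {Z : ℕ → ℂ} (hZ : ∀ n, ‖Z n‖ ≤ 1) (K n : ℕ) : wn Z K n ≤ K := by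
  unfold wn
  refine (norm_sum_le _ _).trans ((sum_le_sum fun n _ => hZ _).trans (le_of_eq ?_))
  simp

/-- one exceptional set -/
theorem out {ι : Type} [Encodable ι] (U : ι → ℕ → ℝ) (hU : ∀ i, QL (U i)) (α : ℕ → ℝ) (hα : ∀ i, Irrational (α i))
    (K : ℕ → ℕ → ℕ) (hK : ∀ j, Tendsto (K j) atTop atTop) (hKN : ∀ j N, K j N ≤ N) :
    ∃ E : Set ℕ, LZ E ∧ ∀ (x : ι) (i j : ℕ) (ε : ℝ), 0 < ε → ∃ N₀ : ℕ, ∀ N : ℕ, N₀ ≤ N → N ∉ E →
      ∑ n ∈ range N, wn (ZZ (U x) (α i)) (K j N) n ≤ ε * K j N * N := by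
  obtain ⟨E, hE, h1⟩ := LZ_diag' (ι := ι × ℕ × ℕ × ℕ)
    (fun z => {N : ℕ | K z.2.2.1 N ≤ N ∧
      1 / ((z.2.2.2 : ℝ) + 1) < Av N (fun n => ‖AH (ZZ (U z.1) (α z.2.1)) (K z.2.2.1 N) n‖)})
    (fun z => ZZ_grow (hU z.1) (hα z.2.1) (K z.2.2.1) (hK z.2.2.1) _ (by positivity))
  refine ⟨E, hE, fun x i j ε hε => ?_⟩
  obtain ⟨m, hm⟩ := exists_nat_gt (1 / ε)
  obtain ⟨N₁, hN₁⟩ := h1 (x, i, j, m)
  obtain ⟨N₂, hN₂⟩ := eventually_atTop.1 ((hK j).eventually_ge_atTop 1)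
  refine ⟨max N₁ (max N₂ 1), fun N hN hNE => ?_⟩
  have hN1 : N₁ ≤ N := le_trans (le_max_left _ _) hN
  have hN2 : N₂ ≤ N := le_trans (le_trans (le_max_left _ _) (le_max_right _ _)) hN
  have hN3 : 1 ≤ N := le_trans (le_trans (le_max_right _ _) (le_max_right _ _)) hN
  have hNr : (0 : ℝ) < N := by exact_mod_cast hN3
  have hKr : (0 : ℝ) < K j N := by exact_mod_cast hN₂ N hN2
  have h2 : ¬ (1 / ((m : ℝ) + 1) < Av N (fun n => ‖AH (ZZ (U x) (α i)) (K j N) n‖)) := fun h =>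
    hNE (hN₁ N hN1 ⟨hKN j N, h⟩)
  rw [not_lt] at h2
  have h3 : 1 / ((m : ℝ) + 1) ≤ ε := by
    rw [div_le_iff₀ (by positivity)]
    rw [div_lt_iff₀ hε] at hm
    nlinarith
  have h4 := h2.trans h3
  unfold Av at h4
  rw [div_le_iff₀ hNr] at h4
  have h5 : ∑ n ∈ range N, wn (ZZ (U x) (α i)) (K j N) n =
      (∑ n ∈ range N, ‖AH (ZZ (U x) (α i)) (K j N) n‖) * K j N := by
    rw [sum_mul]
    refine sum_congr rfl fun n _ => ?_
    unfold wn AH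
    rw [norm_div, Complex.norm_natCast, div_mul_cancel₀ _ hKr.ne']
  rw [h5]
  nlinarith

/-- windows starting between `s` and `N + s` -/
lemma wn_shift {Z : ℕ → ℂ} (hZ : ∀ n, ‖Z n‖ ≤ 1) (K N s : ℕ) :
    ∑ n ∈ range N, wn Z K (n + s) ≤ ∑ n ∈ range N, wn Z K n + s * K := by
  have h1 : ∑ n ∈ range N, wn Z K (n + s) ≤ ∑ n ∈ range (N + s), wn Z K n := by
    have e : ∑ n ∈ range N, wn Z K (n + s) = ∑ n ∈ Ico s (N + s), wn Z K n := by
      rw [sum_Ico_eq_sum_range, Nat.add_sub_cancel]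
      exact sum_congr rfl fun n _ => by rw [add_comm]
    rw [e]
    apply sum_le_sum_of_subset_of_nonneg
    · intro n hn
      rw [mem_Ico] at hn
      rw [mem_range]
      omega
    · intro n _ _
      exact norm_nonneg _
  refine h1.trans ?_
  rw [sum_range_add]
  apply add_le_add le_rfl
  calc ∑ x ∈ range s, wn Z K (N + x) ≤ ∑ x ∈ range s, (K : ℝ) := sum_le_sum fun x _ => wn_le hZ _ _
    _ = s * K := by simp

/-- long sums from windows -/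
lemma long {Z : ℕ → ℂ} (hZ : ∀ n, ‖Z n‖ ≤ 1) {K : ℕ} (hK : 1 ≤ K) {N Y X : ℕ} (hYX : Y ≤ X) (hXN : X ≤ N) :
    K * ‖∑ n ∈ Ioc Y X, Z n‖ ≤ ∑ n ∈ range N, wn Z K n + K + 2 * K * K := by
  have h1 : ∀ h : ℕ, ‖∑ n ∈ Ioc Y X, Z (n + h) - ∑ n ∈ Ioc Y X, Z n‖ ≤ 2 * h := by
    intro h
    have e1 : ∀ g : ℕ → ℂ, ∑ n ∈ Ioc Y X, g n = ∑ n ∈ range (X + 1), g n - ∑ n ∈ range (Y + 1), g n := by
      intro g
      rw [← sum_range_add_sum_Ico _ (by omega : Y + 1 ≤ X + 1)]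
      have h2 : Ioc Y X = Ico (Y + 1) (X + 1) := by
        ext n
        rw [mem_Ioc, mem_Ico]
        omega
      rw [h2]
      ring
    have e2 : ∀ M : ℕ, ∑ n ∈ range M, Z (n + h) = ∑ n ∈ range M, Z n + (∑ n ∈ range h, Z (M + n) - ∑ n ∈ range h, Z n) := by
      intro M
      have a1 : ∑ n ∈ range (h + M), Z n = ∑ n ∈ range h, Z n + ∑ n ∈ range M, Z (h + n) := sum_range_add _ _ _
      have a2 : ∑ n ∈ range (h + M), Z n = ∑ n ∈ range M, Z n + ∑ n ∈ range h, Z (M + n) := by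
        rw [add_comm h M, sum_range_add]
      have a3 : ∑ n ∈ range M, Z (n + h) = ∑ n ∈ range M, Z (h + n) := sum_congr rfl fun n _ => by rw [add_comm]
      rw [a3]
      linear_combination a2 - a1
    rw [e1, e1, e2, e2]
    have e3 : ∑ n ∈ range (X + 1), Z n + (∑ n ∈ range h, Z (X + 1 + n) - ∑ n ∈ range h, Z n) -
        (∑ n ∈ range (Y + 1), Z n + (∑ n ∈ range h, Z (Y + 1 + n) - ∑ n ∈ range h, Z n)) -
        (∑ n ∈ range (X + 1), Z n - ∑ n ∈ range (Y + 1), Z n) =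
        ∑ n ∈ range h, Z (X + 1 + n) - ∑ n ∈ range h, Z (Y + 1 + n) := by ring
    rw [e3]
    have a : ∀ M : ℕ, ‖∑ n ∈ range h, Z (M + n)‖ ≤ h := by
      intro M
      refine (norm_sum_le _ _).trans ((sum_le_sum fun n _ => hZ _).trans (le_of_eq ?_))
      simp
    refine (norm_sub_le _ _).trans ?_
    linarith [a (X + 1), a (Y + 1)]
  have h2 : (K : ℂ) * ∑ n ∈ Ioc Y X, Z n = ∑ n ∈ Ioc Y X, ∑ h ∈ range K, Z (n + h) -
      ∑ h ∈ range K, (∑ n ∈ Ioc Y X, Z (n + h) - ∑ n ∈ Ioc Y X, Z n) := by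
    rw [sum_sub_distrib, sum_comm (s := range K), sum_const, card_range, nsmul_eq_mul]
    ring
  have h3 : K * ‖∑ n ∈ Ioc Y X, Z n‖ = ‖(K : ℂ) * ∑ n ∈ Ioc Y X, Z n‖ := by
    rw [norm_mul, Complex.norm_natCast]
  rw [h3, h2]
  refine (norm_sub_le _ _).trans (add_le_add ?_ ?_)
  · refine (norm_sum_le _ _).trans ?_
    calc ∑ n ∈ Ioc Y X, ‖∑ h ∈ range K, Z (n + h)‖ ≤ ∑ n ∈ range (N + 1), wn Z K n := by
          apply sum_le_sum_of_subset_of_nonneg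
          · intro n hn
            rw [mem_Ioc] at hn
            rw [mem_range]
            omega
          · intro n _ _
            exact norm_nonneg _
      _ = ∑ n ∈ range N, wn Z K n + wn Z K N := sum_range_succ _ _
      _ ≤ ∑ n ∈ range N, wn Z K n + K := add_le_add le_rfl (wn_le hZ _ _)
  · refine (norm_sum_le _ _).trans ?_
    calc ∑ h ∈ range K, ‖∑ n ∈ Ioc Y X, Z (n + h) - ∑ n ∈ Ioc Y X, Z n‖ ≤ ∑ h ∈ range K, 2 * (K : ℝ) := by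
          apply sum_le_sum
          intro h hh
          have : (h : ℝ) ≤ K := by exact_mod_cast (mem_range.1 hh).le
          linarith [h1 h]
      _ = 2 * K * K := by
          rw [sum_const, card_range, nsmul_eq_mul]
          ring

/-- all partial sums, one exceptional set -/
theorem out_long {ι : Type} [Encodable ι] (U : ι → ℕ → ℝ) (hU : ∀ i, QL (U i)) (α : ℕ → ℝ)
    (hα : ∀ i, Irrational (α i)) :
    ∃ E : Set ℕ, LZ E ∧ ∀ (x : ι) (i : ℕ) (ε : ℝ), 0 < ε → ∃ N₀ : ℕ, ∀ N : ℕ, N₀ ≤ N → N ∉ E →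
      ∀ Y X : ℕ, Y ≤ X → X ≤ N → ‖∑ n ∈ Ioc Y X, ZZ (U x) (α i) n‖ ≤ ε * N := by
  have hs : Tendsto Nat.sqrt atTop atTop := by
    apply tendsto_atTop_atTop.2
    intro b
    exact ⟨b * b, fun a ha => Nat.le_sqrt.2 ha⟩
  obtain ⟨E, hE, h1⟩ := out U hU α hα (fun _ => Nat.sqrt) (fun _ => hs) (fun _ N => Nat.sqrt_le_self N)
  refine ⟨E, hE, fun x i ε hε => ?_⟩
  obtain ⟨N₀, h2⟩ := h1 x i 0 (ε / 2) (by positivity)
  obtain ⟨m, hm⟩ := exists_nat_gt (6 / ε)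
  refine ⟨max N₀ (m * m + 1), fun N hN hNE Y X hYX hXN => ?_⟩
  have hN0 : N₀ ≤ N := le_trans (le_max_left _ _) hN
  have hN1 : m * m + 1 ≤ N := le_trans (le_max_right _ _) hN
  have h3 := h2 N hN0 hNE
  have hmK : m ≤ Nat.sqrt N := Nat.le_sqrt.2 (by omega)
  have hm0 : (0 : ℝ) < m := lt_trans (by positivity) hm
  have hm1 : 1 ≤ m := by exact_mod_cast hm0
  have hK1 : 1 ≤ Nat.sqrt N := hm1.trans hmK
  have h4 := long (ZZ_le (hU x) (α i)) hK1 hYX hXN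
  have hK0 : (0 : ℝ) < Nat.sqrt N := by exact_mod_cast hK1
  have hK1r : (1 : ℝ) ≤ Nat.sqrt N := by exact_mod_cast hK1
  have hKm : (6 : ℝ) / ε ≤ Nat.sqrt N := hm.le.trans (by exact_mod_cast hmK)
  have hKN : (Nat.sqrt N : ℝ) * Nat.sqrt N ≤ N := by exact_mod_cast Nat.sqrt_le N
  rw [div_le_iff₀ hε] at hKm
  have h5 : (Nat.sqrt N : ℝ) + 2 * Nat.sqrt N * Nat.sqrt N ≤ ε / 2 * Nat.sqrt N * N := by
    have h6 : 6 * (Nat.sqrt N : ℝ) ≤ ε * N := by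
      calc 6 * (Nat.sqrt N : ℝ) ≤ (Nat.sqrt N * ε) * Nat.sqrt N := mul_le_mul_of_nonneg_right hKm hK0.le
        _ = ε * (Nat.sqrt N * Nat.sqrt N) := by ring
        _ ≤ ε * N := mul_le_mul_of_nonneg_left hKN hε.le
    have h7 : (Nat.sqrt N : ℝ) * (6 * Nat.sqrt N) ≤ Nat.sqrt N * (ε * N) := mul_le_mul_of_nonneg_left h6 hK0.le
    nlinarith
  have h6 : (Nat.sqrt N : ℝ) * ‖∑ n ∈ Ioc Y X, ZZ (U x) (α i) n‖ ≤ Nat.sqrt N * (ε * N) := by
    have h8 : (∑ n ∈ range N, wn (ZZ (U x) (α i)) (Nat.sqrt N) n : ℝ) ≤ ε / 2 * Nat.sqrt N * N := h3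
    have e : (Nat.sqrt N : ℝ) * (ε * N) = ε / 2 * Nat.sqrt N * N + ε / 2 * Nat.sqrt N * N := by ring
    rw [e]
    linarith
  exact le_of_mul_le_mul_left h6 hK0

end Pool.Agent.P8H6.Irw
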