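import Pool.Agent.P8H6.Irw.One

/-!
# Irrational phases with slowly varying weights: the theorem
-/

set_option autoImplicit false

namespace Pool.Agent.P8H6.Irw

open Finset Filter Topology
open Pool.Agent.TH112.BL (Bd QD win)
open Pool.Agent.Y958.TC
open Pool.Agent.Y958.U (LZ S_AVC QQ)
open Pool.Agent.P8H6.Irr

section main

variable {k : ℕ} (f : Fin k → ℕ → ℤ) (a b : Fin k → ℕ) (α θ : ℝ)

/-- comparison of the averages at the scales `M / p` and `M` -/
lemma cmp (hf : ∀ i, Flip (f i)) (ha : ∀ i, 1 ≤ a i) (h0 : 0 < α) {A : ℕ} (hAa : ∀ i, a i ≤ A)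
    (sc : Fin k → ℕ → ℤ) (p : ℕ) (hp : p.Prime) (hpA : A < p)
    (hsgn : ∀ j, |sc j p| = 1 ∧ ∀ n, ¬ p ∣ n → f j (p * n) = sc j p * f j n)
    (W : ℕ → ℝ) (hW : ∀ n, |W n| ≤ 1) (M : ℕ) (hM : p ≤ M) :
    |Av (M / p) (fun n => W n * psi f a b α θ n)| ≤
      |Av M (fun n => W (nx p n / p) * GG f a b α θ p (nx p n))| +
        (2 * k * (1 / p + 1 / ((M / p : ℕ) : ℝ)) + 4 * p / M + 2 * Real.pi / p) := by
  have hb : ∀ i n, |f i n| ≤ 1 := fun i n => (hf i).bd n
  have hpr : (0 : ℝ) < p := by exact_mod_cast hp.pos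
  have hx : ∀ j, ∃ x : ℕ, ∀ m : ℕ, p ∣ a j * m + b j → p ∣ m + x := fun j =>
    exists_x hp (ha j) ((hAa j).trans_lt hpA)
  choose x hx using hx
  set s : ℝ := ∏ j, (sc j p : ℝ) with hs
  have hs1' : |s| = 1 := by
    rw [hs, abs_prod]
    apply prod_eq_one
    intro j _
    have := (hsgn j).1
    exact_mod_cast this
  have hHHle : ∀ n, |HH f a b α θ p n| ≤ 1 := fun n => mul_le' (FF_le a b hb _ _) (ph_le _ _)
  have hGGle : ∀ n, |GG f a b α θ p n| ≤ 1 := fun n => mul_le' (FF_le a b hb _ _) (ph_le _ _)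
  have hpsi : ∀ n, |psi f a b α θ n| ≤ 1 := psi_le a b α θ hb
  have h1 := av_cmp (univ : Finset (Fin k)) x p (M / p) hp.one_le ((Nat.one_le_div_iff hp.pos).2 hM) s
    (fun m => W (m / p) * HH f a b α θ p m) (fun m => W m * psi f a b α θ m)
    (fun m => mul_le' (hW _) (hHHle _)) (fun m => by
      rw [abs_mul, hs1', one_mul]
      exact mul_le' (hW _) (hpsi _)) (by
      intro m hm
      rw [Nat.mul_div_cancel_left _ hp.pos]
      unfold HH FF psi
      rw [mul_left_comm s]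
      congr 1
      rw [← mul_assoc, hs, ← prod_mul_distrib]
      congr 1
      · refine prod_congr rfl fun j _ => ?_
        have h7 : ¬ p ∣ a j * m + b j := fun h => hm j (mem_univ j) (hx j m h)
        have h8 := (hsgn j).2 _ h7
        rw [show a j * (p * m) + p * b j = p * (a j * m + b j) by ring, h8]
        push_cast
        ring
      · congr 1
        push_cast
        field_simp)
  rw [card_univ, Fintype.card_fin] at h1
  have h2 := ceil_av p M hp.one_le hM (fun m => W (m / p) * HH f a b α θ p m) (fun m => mul_le' (hW _) (hHHle _))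
  have h3 : |Av M (fun n => W (nx p n / p) * HH f a b α θ p (nx p n)) -
      Av M (fun n => W (nx p n / p) * GG f a b α θ p (nx p n))| ≤ 2 * Real.pi / p := by
    rw [← Av_sub]
    apply Av_bd (by positivity)
    intro n
    rw [← mul_sub, abs_mul]
    have h8 : ∀ m : ℕ, |HH f a b α θ p m - GG f a b α θ p m| ≤ 2 * Real.pi / p := by
      intro m
      unfold HH GG
      rw [← mul_sub, abs_mul]
      have h9 := ph_lip θ (α * m / p) ((⌊α * (m : ℝ)⌋₊ : ℝ) / p)
      have h10 : |α * (m : ℝ) / p - (⌊α * (m : ℝ)⌋₊ : ℝ) / p| ≤ 1 / p := by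
        rw [← sub_div, abs_div, abs_of_pos hpr]
        apply div_le_div_of_nonneg_right _ hpr.le
        have h11 := Nat.floor_le (mul_nonneg h0.le (Nat.cast_nonneg m) : 0 ≤ α * (m : ℝ))
        have h12 := Nat.lt_floor_add_one (α * (m : ℝ))
        rw [abs_of_nonneg (by linarith)]
        linarith
      calc |FF f a b p m| * |ph θ (α * m / p) - ph θ ((⌊α * (m : ℝ)⌋₊ : ℝ) / p)| ≤
            1 * (2 * Real.pi * (1 / p)) := by
            apply mul_le_mul (FF_le a b hb _ _) _ (abs_nonneg _) zero_le_one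
            exact h9.trans (mul_le_mul_of_nonneg_left h10 Real.two_pi_pos.le)
        _ = 2 * Real.pi / p := by ring
    calc |W (nx p n / p)| * |HH f a b α θ p (nx p n) - GG f a b α θ p (nx p n)| ≤ 1 * (2 * Real.pi / p) :=
          mul_le_mul (hW _) (h8 _) (abs_nonneg _) zero_le_one
      _ = _ := one_mul _
  have h4 : |Av (M / p) (fun n => W n * psi f a b α θ n)| = |s * Av (M / p) (fun n => W n * psi f a b α θ n)| := by
    rw [abs_mul, hs1', one_mul]
  rw [h4]
  have h2' : |Av M (fun n => W (nx p n / p) * HH f a b α θ p (nx p n)) -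
      Av (M / p) (fun k => W (p * k / p) * HH f a b α θ p (p * k))| ≤ 4 * p / M := h2
  have h1' : |Av (M / p) (fun k => W (p * k / p) * HH f a b α θ p (p * k)) -
      s * Av (M / p) (fun n => W n * psi f a b α θ n)| ≤ 2 * k * (1 / p + 1 / ((M / p : ℕ) : ℝ)) := h1
  rw [abs_le] at h1' h2' h3
  have h5 := le_abs_self (Av M (fun n => W (nx p n / p) * GG f a b α θ p (nx p n)))
  have h6 := neg_abs_le (Av M (fun n => W (nx p n / p) * GG f a b α θ p (nx p n)))
  rw [abs_le]
  constructor <;> linarith [h1'.1, h1'.2, h2'.1, h2'.2, h3.1, h3.2]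

/-- the weights of the partition of unity -/
noncomputable def Th (w : ℕ → ℕ → ℝ) (P : Finset ℕ) (R : ℕ) (L : ℕ → ℕ) (M n : ℕ) : ℝ :=
  Tn P R L (fun p => w (M / p) (n / p))

lemma Th_wt (𝓤 : Ultrafilter ℕ) (hU : (𝓤 : Filter ℕ) ≤ atTop) (w : ℕ → ℕ → ℝ) (hw : ∀ N n, |w N n| ≤ 1)
    (hsv : Tendsto (fun N => Av N (fun n => |w N (n + 1) - w N n|)) atTop (𝓝 0))
    (P : Finset ℕ) (hP : ∀ p ∈ P, 1 ≤ p) (R : ℕ) (L : ℕ → ℕ) : Wt 𝓤 (Th w P R L) where
  nn M n := Tn_nn _ _ _ _
  le M n := Tn_le _ _ _ _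
  sv := by
    have h1 : Tendsto (fun M => ∑ p ∈ P, (R : ℝ) *
        Av M (fun n => |w (M / p) (n / p + 1) - w (M / p) (n / p)|)) 𝓤 (𝓝 (∑ p ∈ P, (R : ℝ) * 0)) := by
      apply tendsto_finsetSum
      intro p hp
      apply Tendsto.const_mul
      exact (slow w hw hsv (hP p hp)).mono_left hU
    rw [mul_zero, sum_const_zero] at h1
    apply squeeze_zero' _ _ h1
    · filter_upwards with M
      exact Av_nonneg M fun n => abs_nonneg _
    · filter_upwards with M
      have h2 : ∀ n, |Th w P R L M (n + 1) - Th w P R L M n| ≤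
          ∑ p ∈ P, (R : ℝ) * |w (M / p) (n / p + 1) - w (M / p) (n / p)| := by
        intro n
        unfold Th
        refine (Tn_lip _ _ _ _ _).trans ?_
        apply sum_le_sum
        intro p hp
        exact mul_le_mul_of_nonneg_left (succ_le' (w (M / p)) (hP p hp) n) (Nat.cast_nonneg _)
      refine (Av_mono M h2).trans (le_of_eq ?_)
      rw [Av_sum]
      exact sum_congr rfl fun p _ => Av_smul _ _ _

/-- splitting by the values of the weights -/
lemma split (w : ℕ → ℕ → ℝ) (hw : ∀ N n, |w N n| ≤ 1) (P : Finset ℕ) {R : ℕ} (hR : 1 ≤ R)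
    (p : ℕ) (hpP : p ∈ P) (hp : 1 ≤ p) (G : ℕ → ℝ) (hG : ∀ n, |G n| ≤ 1) {M : ℕ} (hM : 1 ≤ M) :
    |Av M (fun n => w (M / p) (nx p n / p) * G n)| ≤
      2 * ∑ l ∈ Ls P R, |Av M (fun n => Th w P R (ex l) M n * G n)| + 1 / R +
        Av M (fun n => |w (M / p) (n / p + 1) - w (M / p) (n / p)|) := by
  classical
  have hR0 : (0 : ℝ) < R := by exact_mod_cast hR
  have hR1 : (1 : ℝ) ≤ R := by exact_mod_cast hR
  set cc : (∀ p ∈ P, ℕ) → ℝ := fun l => ((ex l p : ℝ) - R) / R with hcc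
  -- the decomposition
  have e1 : ∀ n, w (M / p) (nx p n / p) * G n =
      (w (M / p) (nx p n / p) - w (M / p) (n / p)) * G n +
      ∑ l ∈ Ls P R, Th w P R (ex l) M n * ((w (M / p) (n / p) - cc l) * G n) +
      ∑ l ∈ Ls P R, cc l * (Th w P R (ex l) M n * G n) := by
    intro n
    have h1 : ∑ l ∈ Ls P R, Th w P R (ex l) M n = 1 := by
      unfold Th
      exact Tn_sum P R _ fun q => hw _ _
    have h2 : ∑ l ∈ Ls P R, Th w P R (ex l) M n * ((w (M / p) (n / p) - cc l) * G n) +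
        ∑ l ∈ Ls P R, cc l * (Th w P R (ex l) M n * G n) = w (M / p) (n / p) * G n := by
      rw [← sum_add_distrib]
      calc ∑ l ∈ Ls P R, (Th w P R (ex l) M n * ((w (M / p) (n / p) - cc l) * G n) +
            cc l * (Th w P R (ex l) M n * G n)) =
            ∑ l ∈ Ls P R, Th w P R (ex l) M n * (w (M / p) (n / p) * G n) := by
            refine sum_congr rfl fun l _ => ?_
            ring
        _ = _ := by rw [← sum_mul, h1, one_mul]
    rw [add_assoc, h2]
    ring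
  rw [funext e1, Av_add, Av_add]
  have b1 : |Av M (fun n => (w (M / p) (nx p n / p) - w (M / p) (n / p)) * G n)| ≤
      Av M (fun n => |w (M / p) (n / p + 1) - w (M / p) (n / p)|) := by
    refine (Av_abs_le _ _).trans (Av_mono M fun n => ?_)
    rw [abs_mul]
    calc |w (M / p) (nx p n / p) - w (M / p) (n / p)| * |G n| ≤
          |w (M / p) (n / p + 1) - w (M / p) (n / p)| * 1 :=
          mul_le_mul (nx_le _ hp n) (hG n) (abs_nonneg _) (abs_nonneg _)
      _ = _ := mul_one _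
  have b2 : |Av M (fun n => ∑ l ∈ Ls P R, Th w P R (ex l) M n * ((w (M / p) (n / p) - cc l) * G n))| ≤ 1 / R := by
    apply Av_bd (by positivity)
    intro n
    refine (abs_sum_le_sum_abs _ _).trans ?_
    have h1 : ∑ l ∈ Ls P R, Th w P R (ex l) M n = 1 := by
      unfold Th
      exact Tn_sum P R _ fun q => hw _ _
    calc ∑ l ∈ Ls P R, |Th w P R (ex l) M n * ((w (M / p) (n / p) - cc l) * G n)| ≤
          ∑ l ∈ Ls P R, Th w P R (ex l) M n * (1 / R) := by
          apply sum_le_sum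
          intro l _
          have h2 : 0 ≤ Th w P R (ex l) M n := Tn_nn _ _ _ _
          rw [abs_mul, abs_of_nonneg h2]
          by_cases hz : tent R (ex l p) (w (M / p) (n / p)) = 0
          · have h3 : Th w P R (ex l) M n = 0 := by
              unfold Th Tn
              exact prod_eq_zero hpP hz
            rw [h3, zero_mul, zero_mul]
          · apply mul_le_mul_of_nonneg_left _ h2
            have h3 := tent_supp hR hz
            rw [abs_mul]
            calc |w (M / p) (n / p) - cc l| * |G n| ≤ (1 / R) * 1 :=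
                  mul_le_mul h3 (hG n) (abs_nonneg _) (by positivity)
              _ = _ := mul_one _
      _ = 1 / R := by rw [← sum_mul, h1, one_mul]
  have b3 : |Av M (fun n => ∑ l ∈ Ls P R, cc l * (Th w P R (ex l) M n * G n))| ≤
      2 * ∑ l ∈ Ls P R, |Av M (fun n => Th w P R (ex l) M n * G n)| := by
    rw [Av_sum, mul_sum]
    refine (abs_sum_le_sum_abs _ _).trans (sum_le_sum fun l hl => ?_)
    rw [Av_smul, abs_mul]
    apply mul_le_mul_of_nonneg_right _ (abs_nonneg _)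
    rw [hcc]
    simp only
    have h1 : ex l p < 2 * R + 2 := by
      unfold ex
      rw [dif_pos hpP]
      unfold Ls at hl
      exact mem_range.1 (mem_pi.1 hl p hpP)
    have h2 : (ex l p : ℝ) ≤ 2 * R + 1 := by
      have : ex l p ≤ 2 * R + 1 := by omega
      exact_mod_cast this
    have h3 : (0 : ℝ) ≤ ex l p := Nat.cast_nonneg _
    rw [abs_div, Nat.abs_cast, div_le_iff₀ hR0, abs_le]
    constructor <;> linarith
  have h1 := abs_add_three (Av M (fun n => (w (M / p) (nx p n / p) - w (M / p) (n / p)) * G n))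
    (Av M (fun n => ∑ l ∈ Ls P R, Th w P R (ex l) M n * ((w (M / p) (n / p) - cc l) * G n)))
    (Av M (fun n => ∑ l ∈ Ls P R, cc l * (Th w P R (ex l) M n * G n)))
  linarith

/-- **irrational phases with slowly varying weights** -/
theorem irw (hA : S_AVC) (hf : ∀ i, Flip (f i)) (ha : ∀ i, 1 ≤ a i) (h0 : 0 < α) (h1 : α < 1)
    (hα : Irrational α) (w : ℕ → ℕ → ℝ) (hw : ∀ N n, |w N n| ≤ 1)
    (hsv : Tendsto (fun N => Av N (fun n => |w N (n + 1) - w N n|)) atTop (𝓝 0))
    (δ : ℝ) (hδ : 0 < δ) : LZ {N | δ < |Av N (fun n => w N n * psi f a b α θ n)|} := by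
  classical
  by_contra hcon
  set E : Set ℕ := {N | δ < |Av N (fun n => w N n * psi f a b α θ n)|} with hEd
  have hLZ0 : LZ (∅ : Set ℕ) := by
    unfold LZ
    simp
  obtain ⟨ε', hε', I₀, hAv⟩ := hA E ∅ hcon hLZ0
  have hb : ∀ i n, |f i n| ≤ 1 := fun i n => (hf i).bd n
  choose P₀ sc hsc using fun i => (hf i).fl
  -- the constants
  set A : ℕ := 1 + ∑ i, a i with hAd
  have hAa : ∀ i, a i ≤ A := by
    intro i
    have := single_le_sum (f := a) (fun _ _ => Nat.zero_le _) (mem_univ i)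
    omega
  set c : ℕ := 2 * (1 + ∑ i, b i) with hc
  have hcb : ∀ i, 2 * (1 + b i) ≤ c := by
    intro i
    have := single_le_sum (f := b) (fun _ _ => Nat.zero_le _) (mem_univ i)
    omega
  set ε : ℝ := ε' * δ / 16 with hε
  have hε0 : 0 < ε := by positivity
  have hη0 : 0 < (ε / 30) * ε / 3 := by positivity
  have hlim : Tendsto (fun i : ℕ => (i : ℝ) / 2 ^ i) atTop (𝓝 0) := by
    have := tendsto_pow_const_div_const_pow_of_one_lt 1 (show (1 : ℝ) < 2 by norm_num)
    simpa using this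
  have hlim2 : Tendsto (fun i : ℕ => (3 * (2 * k + 2 * Real.pi) : ℝ) / 2 ^ i) atTop (𝓝 0) := by
    have h1 := tendsto_pow_const_div_const_pow_of_one_lt 0 (show (1 : ℝ) < 2 by norm_num)
    have h2 := h1.const_mul (3 * (2 * k + 2 * Real.pi) : ℝ)
    simp only [pow_zero, mul_zero] at h2
    refine h2.congr fun i => ?_
    ring
  obtain ⟨I₂, hI₂⟩ := eventually_atTop.1 (hlim.eventually_lt_const hη0)
  obtain ⟨I₃, hI₃⟩ := eventually_atTop.1 (hlim2.eventually_lt_const hε0)
  set i₀ : ℕ := I₀ + I₂ + I₃ + A + (∑ i, P₀ i) + 1 with hi₀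
  set B : ℝ := c * Real.log (Fintype.card ((Fin k → Fin A → SignType) × Fin 2)) / ((ε / 30) * ε / 3) with hB
  have hB0 : 0 ≤ B := by
    have : 0 ≤ Real.log (Fintype.card ((Fin k → Fin A → SignType) × Fin 2)) := Real.log_natCast_nonneg _
    positivity
  obtain ⟨i₁, hi₁, hS⟩ := sum_inv_large i₀ (by omega) (24 * B / (ε' * δ) * 2)
  set S : ℝ := ∑ i ∈ Ico i₀ i₁, (1 : ℝ) / i with hSd
  have hS0 : 0 < S := lt_of_le_of_lt (by positivity) hS
  obtain ⟨𝓤, hU, hmem⟩ := exists_ultra _ (fun M₀ => by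
    obtain ⟨M, hM1, hM2, hM3⟩ := hAv i₀ i₁ (by omega) hi₁ M₀
    exact ⟨M, hM1, hM3⟩ : ∀ M₀ : ℕ, ∃ M, M₀ ≤ M ∧ M ∈ {M : ℕ | ε' * S ≤
      ∑ i ∈ Ico i₀ i₁, (1 : ℝ) / i * ∑ p ∈ QQ i, Real.log p / 2 ^ i * (if M / p ∈ E then 1 else 0)})
  have hw0 : ∀ i, ∀ p ∈ QD i (i + 1), 0 ≤ Real.log (p : ℝ) / 2 ^ i := fun i p _ =>
    div_nonneg (Real.log_natCast_nonneg _) (by positivity)
  have hpsi : ∀ n, |psi f a b α θ n| ≤ 1 := psi_le a b α θ hb
  -- the limits
  set sW : ℕ → ℝ := fun p => ulim 𝓤 (fun M => Av (M / p) (fun n => w (M / p) n * psi f a b α θ n)) with hsW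
  have hsWt : ∀ p, Tendsto (fun M => Av (M / p) (fun n => w (M / p) n * psi f a b α θ n)) 𝓤 (𝓝 (sW p)) := fun p =>
    ulim_spec 𝓤 1 fun M => Av_bd zero_le_one (fun n => mul_le' (hw _ _) (hpsi _)) _
  have hlimineq : ε' * S ≤ ∑ i ∈ Ico i₀ i₁, (1 : ℝ) / i *
      ∑ p ∈ QD i (i + 1), Real.log p / 2 ^ i * (|sW p| / δ) := by
    have h1 : Tendsto (fun M => ∑ i ∈ Ico i₀ i₁, (1 : ℝ) / i *
        ∑ p ∈ QD i (i + 1), Real.log p / 2 ^ i * (|Av (M / p) (fun n => w (M / p) n * psi f a b α θ n)| / δ)) 𝓤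
        (𝓝 (∑ i ∈ Ico i₀ i₁, (1 : ℝ) / i *
        ∑ p ∈ QD i (i + 1), Real.log p / 2 ^ i * (|sW p| / δ))) := by
      apply tendsto_finsetSum
      intro i _
      apply Tendsto.const_mul
      apply tendsto_finsetSum
      intro p _
      apply Tendsto.const_mul
      apply Tendsto.div_const
      exact (hsWt p).abs
    apply ge_of_tendsto h1
    filter_upwards [hmem] with M hM
    refine le_trans hM ?_
    apply sum_le_sum
    intro i _
    apply mul_le_mul_of_nonneg_left _ (by positivity)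
    apply sum_le_sum
    intro p hp
    apply mul_le_mul_of_nonneg_left _ (hw0 i p hp)
    split_ifs with hME
    · rw [le_div_iff₀ hδ, one_mul]
      exact le_of_lt hME
    · positivity
  -- the partition of unity
  obtain ⟨R, hR⟩ := exists_nat_gt (3 / ε)
  have hR0 : (0 : ℝ) < R := lt_trans (by positivity) hR
  have hR1 : 1 ≤ R := by
    rcases Nat.eq_zero_or_pos R with h | h
    · rw [h] at hR0; simp at hR0
    · exact h
  have hRε : 3 / (R : ℝ) ≤ ε := by
    rw [div_lt_iff₀ hε0] at hR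
    rw [div_le_iff₀ hR0]
    linarith
  set P : Finset ℕ := (Ico i₀ i₁).biUnion fun i => QD i (i + 1) with hPd
  have hP1 : ∀ p ∈ P, 1 ≤ p := by
    intro p hp
    rw [hPd, mem_biUnion] at hp
    obtain ⟨i, -, hpi⟩ := hp
    exact (QDp hpi).one_le
  have hwt : ∀ L : ℕ → ℕ, Wt 𝓤 (Th w P R L) := fun L => Th_wt 𝓤 hU w hw hsv P hP1 R L
  set ms : (∀ p ∈ P, ℕ) → ℝ := fun l => wl 𝓤 (Th w P R (ex l)) (fun _ => 1) with hms
  set Gp : ℕ → ℕ → ℝ := fun p n => GG f a b α θ p (n + (p - n % p) % p) with hGp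
  have hGle : ∀ p n, |Gp p n| ≤ 1 := fun p n => mul_le' (FF_le a b hb _ _) (ph_le _ _)
  have hGBd : ∀ p, Bd (Gp p) := fun p => ⟨1, hGle p⟩
  have hms0 : ∀ l, 0 ≤ ms l := by
    intro l
    apply ge_of_tendsto (wl_tendsto 𝓤 (hwt (ex l)).bf (Pool.Agent.TH112.BL.Bd.const 1))
    filter_upwards with M
    exact Av_nonneg M fun n => mul_nonneg ((hwt (ex l)).nn M n) zero_le_one
  have hmsum : ∑ l ∈ Ls P R, ms l = 1 := by
    have h2 : Tendsto (fun M => ∑ l ∈ Ls P R, Av M (fun n => Th w P R (ex l) M n * 1)) 𝓤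
        (𝓝 (∑ l ∈ Ls P R, ms l)) := by
      apply tendsto_finsetSum
      intro l _
      exact wl_tendsto 𝓤 (hwt (ex l)).bf (Pool.Agent.TH112.BL.Bd.const 1)
    have h3 : Tendsto (fun M => ∑ l ∈ Ls P R, Av M (fun n => Th w P R (ex l) M n * 1)) 𝓤 (𝓝 1) := by
      have h4 : Tendsto (fun _ : ℕ => (1 : ℝ)) 𝓤 (𝓝 1) := tendsto_const_nhds
      refine h4.congr' ?_
      filter_upwards [hU (eventually_ge_atTop 1)] with M hM
      rw [← Av_sum]
      have h5 : ∀ n, ∑ l ∈ Ls P R, Th w P R (ex l) M n * 1 = 1 := by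
        intro n
        simp only [mul_one]
        unfold Th
        exact Tn_sum P R _ fun q => hw _ _
      rw [funext h5, Av_one hM]
    exact tendsto_nhds_unique h2 h3
  have hzero : ∀ l, ¬ 0 < ms l → ∀ p, wl 𝓤 (Th w P R (ex l)) (Gp p) = 0 := by
    intro l hl p
    have h2 : ms l = 0 := le_antisymm (not_lt.1 hl) (hms0 l)
    have h3 : |wl 𝓤 (Th w P R (ex l)) (Gp p)| ≤ ms l := by
      apply le_of_tendsto_of_tendsto (wl_tendsto 𝓤 (hwt (ex l)).bf (hGBd p)).abs
        (wl_tendsto 𝓤 (hwt (ex l)).bf (Pool.Agent.TH112.BL.Bd.const 1))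
      filter_upwards with M
      refine (Av_abs_le _ _).trans (Av_mono M fun n => ?_)
      rw [abs_mul, abs_of_nonneg ((hwt (ex l)).nn M n)]
      exact mul_le_mul_of_nonneg_left (hGle p n) ((hwt (ex l)).nn M n)
    rw [h2] at h3
    exact abs_nonpos_iff.1 h3
  -- one prime
  have hprime : ∀ i ∈ Ico i₀ i₁, ∀ p ∈ QD i (i + 1), |sW p| ≤
      2 * ∑ l ∈ Ls P R, |wl 𝓤 (Th w P R (ex l)) (Gp p)| + 1 / R + (2 * k + 2 * Real.pi) / 2 ^ i := by
    intro i hi p hp
    have hpP : p ∈ P := by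
      rw [hPd, mem_biUnion]
      exact ⟨i, hi, hp⟩
    rw [mem_Ico] at hi
    have hpp := QDp hp
    have hp2 : 2 ^ i < p := by
      unfold QD at hp
      rw [mem_filter, mem_Ioc] at hp
      exact hp.1.1
    have hi2 : i < 2 ^ i := Nat.lt_two_pow_self
    have hpr : (0 : ℝ) < p := by exact_mod_cast hpp.pos
    have hp2r : (2 : ℝ) ^ i ≤ p := by exact_mod_cast hp2.le
    have hsgn : ∀ j, |sc j p| = 1 ∧ ∀ n, ¬ p ∣ n → f j (p * n) = sc j p * f j n := by
      intro j
      apply hsc j p hpp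
      have := single_le_sum (f := P₀) (fun _ _ => Nat.zero_le _) (mem_univ j)
      omega
    have hdiv : Tendsto (fun M : ℕ => 1 / ((M / p : ℕ) : ℝ)) 𝓤 (𝓝 0) :=
      tendsto_one_div_atTop_nhds_zero_nat.comp (div_atTop 𝓤 hU p hpp.one_le)
    have h2 : Tendsto (fun M : ℕ => (2 * ∑ l ∈ Ls P R, |Av M (fun n => Th w P R (ex l) M n * Gp p n)| + 1 / R +
        Av M (fun n => |w (M / p) (n / p + 1) - w (M / p) (n / p)|)) +
        (2 * k * (1 / p + 1 / ((M / p : ℕ) : ℝ)) + 4 * p / M + 2 * Real.pi / p)) 𝓤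
        (𝓝 ((2 * ∑ l ∈ Ls P R, |wl 𝓤 (Th w P R (ex l)) (Gp p)| + 1 / R + 0) +
          (2 * k * (1 / p + 0) + 0 + 2 * Real.pi / p))) := by
      apply Tendsto.add
      · apply Tendsto.add
        · apply Tendsto.add_const
          apply Tendsto.const_mul
          apply tendsto_finsetSum
          intro l _
          exact (wl_tendsto 𝓤 (hwt (ex l)).bf (hGBd p)).abs
        · exact (slow w hw hsv hpp.one_le).mono_left hU
      · apply Tendsto.add_const
        apply Tendsto.add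
        · apply Tendsto.const_mul
          exact hdiv.const_add _
        · exact (tendsto_const_div_atTop_nhds_zero_nat (4 * p : ℝ)).mono_left hU
    have h3 : |sW p| ≤ (2 * ∑ l ∈ Ls P R, |wl 𝓤 (Th w P R (ex l)) (Gp p)| + 1 / R + 0) +
          (2 * k * (1 / p + 0) + 0 + 2 * Real.pi / p) := by
      apply le_of_tendsto_of_tendsto (hsWt p).abs h2
      filter_upwards [hU (eventually_ge_atTop p)] with M hM
      have h4 := cmp f a b α θ hf ha h0 hAa sc p hpp (by omega) hsgn (w (M / p)) (hw _) M hM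
      have h5 := split w hw P hR1 p hpP hpp.one_le (Gp p) (hGle p) (hpp.one_le.trans hM)
      refine h4.trans ?_
      exact add_le_add h5 le_rfl
    refine h3.trans ?_
    have h4 : 2 * (k : ℝ) * (1 / p) + 2 * Real.pi / p ≤ (2 * k + 2 * Real.pi) / 2 ^ i := by
      rw [mul_one_div, ← add_div]
      apply div_le_div_of_nonneg_left _ (by positivity) hp2r
      have := Real.pi_pos
      positivity
    linarith
  -- summation
  have hth : ∀ i, ∑ p ∈ QD i (i + 1), Real.log (p : ℝ) / 2 ^ i ≤ 3 := by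
    intro i
    rw [← sum_div, div_le_iff₀ (by positivity)]
    exact Pool.Agent.TH575.CW.theta_QD i
  have hsum1 : ∑ i ∈ Ico i₀ i₁, (1 : ℝ) / i * ∑ p ∈ QD i (i + 1), Real.log p / 2 ^ i * |sW p| ≤
      2 * ∑ l ∈ Ls P R, (∑ i ∈ Ico i₀ i₁, (1 : ℝ) / i * ∑ p ∈ QD i (i + 1), Real.log p / 2 ^ i *
        |wl 𝓤 (Th w P R (ex l)) (Gp p)|) + 2 * ε * S := by
    have e1 : 2 * ∑ l ∈ Ls P R, (∑ i ∈ Ico i₀ i₁, (1 : ℝ) / i * ∑ p ∈ QD i (i + 1), Real.log p / 2 ^ i *
        |wl 𝓤 (Th w P R (ex l)) (Gp p)|) =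
        ∑ i ∈ Ico i₀ i₁, (1 : ℝ) / i * ∑ p ∈ QD i (i + 1), Real.log p / 2 ^ i *
          (2 * ∑ l ∈ Ls P R, |wl 𝓤 (Th w P R (ex l)) (Gp p)|) := by
      rw [sum_comm, mul_sum]
      refine sum_congr rfl fun i _ => ?_
      rw [← mul_sum, sum_comm, mul_left_comm]
      congr 1
      rw [mul_sum]
      refine sum_congr rfl fun p _ => ?_
      rw [← mul_sum]
      ring
    rw [e1, hSd, mul_sum, ← sum_add_distrib]
    apply sum_le_sum
    intro i hi
    rw [mul_comm (2 * ε), ← mul_add]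
    apply mul_le_mul_of_nonneg_left _ (by positivity)
    calc ∑ p ∈ QD i (i + 1), Real.log p / 2 ^ i * |sW p| ≤
          ∑ p ∈ QD i (i + 1), (Real.log p / 2 ^ i * (2 * ∑ l ∈ Ls P R, |wl 𝓤 (Th w P R (ex l)) (Gp p)|) +
            Real.log p / 2 ^ i * (1 / R + (2 * k + 2 * Real.pi) / 2 ^ i)) := by
          apply sum_le_sum
          intro p hp
          rw [← mul_add]
          apply mul_le_mul_of_nonneg_left _ (hw0 i p hp)
          have := hprime i hi p hp
          linarith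
      _ = ∑ p ∈ QD i (i + 1), Real.log p / 2 ^ i * (2 * ∑ l ∈ Ls P R, |wl 𝓤 (Th w P R (ex l)) (Gp p)|) +
            (∑ p ∈ QD i (i + 1), Real.log (p : ℝ) / 2 ^ i) * (1 / R + (2 * k + 2 * Real.pi) / 2 ^ i) := by
          rw [sum_add_distrib, sum_mul]
      _ ≤ ∑ p ∈ QD i (i + 1), Real.log p / 2 ^ i * (2 * ∑ l ∈ Ls P R, |wl 𝓤 (Th w P R (ex l)) (Gp p)|) +
            2 * ε := by
          apply add_le_add le_rfl
          have hpi := Real.pi_pos
          have h2 : (∑ p ∈ QD i (i + 1), Real.log (p : ℝ) / 2 ^ i) * (1 / R + (2 * k + 2 * Real.pi) / 2 ^ i) ≤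
              3 * (1 / R + (2 * k + 2 * Real.pi) / 2 ^ i) :=
            mul_le_mul_of_nonneg_right (hth i) (by positivity)
          rw [mem_Ico] at hi
          have h3 := hI₃ i (by omega)
          have h4 : 3 * (1 / (R : ℝ) + (2 * k + 2 * Real.pi) / 2 ^ i) =
              3 / R + 3 * (2 * k + 2 * Real.pi) / 2 ^ i := by ring
          rw [h4] at h2
          linarith
  have hsum2 : ∑ l ∈ Ls P R, (∑ i ∈ Ico i₀ i₁, (1 : ℝ) / i * ∑ p ∈ QD i (i + 1), Real.log p / 2 ^ i *
        |wl 𝓤 (Th w P R (ex l)) (Gp p)|) ≤ ε * S + 3 * B := by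
    calc ∑ l ∈ Ls P R, (∑ i ∈ Ico i₀ i₁, (1 : ℝ) / i * ∑ p ∈ QD i (i + 1), Real.log p / 2 ^ i *
          |wl 𝓤 (Th w P R (ex l)) (Gp p)|) ≤ ∑ l ∈ Ls P R, ms l * (ε * S + 3 * B) := by
          apply sum_le_sum
          intro l _
          by_cases hl : 0 < ms l
          · have h2 := scales f a b α θ (wm 𝓤 hU (Th w P R (ex l)) (hwt (ex l)) hl) hb ha hAa (by omega) h0 h1 hα c
              (by omega) hcb hε0 i₀ i₁ (by omega) (fun i hi => hI₂ i (by omega))
            refine le_trans (le_of_eq ?_) (mul_le_mul_of_nonneg_left h2 hl.le)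
            rw [mul_sum]
            refine sum_congr rfl fun i _ => ?_
            rw [mul_left_comm]
            congr 1
            rw [mul_sum]
            refine sum_congr rfl fun p _ => ?_
            rw [wm_m 𝓤 hU (Th w P R (ex l)) (hwt (ex l)) hl (Gp p), abs_mul, abs_of_pos hl]
            ring
          · have h2 : ∑ i ∈ Ico i₀ i₁, (1 : ℝ) / i * ∑ p ∈ QD i (i + 1), Real.log p / 2 ^ i *
                |wl 𝓤 (Th w P R (ex l)) (Gp p)| = 0 := by
              apply sum_eq_zero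
              intro i _
              rw [sum_eq_zero, mul_zero]
              intro p _
              rw [hzero l hl p, abs_zero, mul_zero]
            rw [h2]
            exact mul_nonneg (hms0 l) (by positivity)
      _ = ε * S + 3 * B := by rw [← sum_mul, hmsum, one_mul]
  have hfin : ε' * S ≤ (2 * (ε * S + 3 * B) + 2 * ε * S) / δ := by
    refine hlimineq.trans ?_
    have e1 : ∑ i ∈ Ico i₀ i₁, (1 : ℝ) / i * ∑ p ∈ QD i (i + 1), Real.log p / 2 ^ i * (|sW p| / δ) =
        (∑ i ∈ Ico i₀ i₁, (1 : ℝ) / i * ∑ p ∈ QD i (i + 1), Real.log p / 2 ^ i * |sW p|) / δ := by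
      rw [sum_div]
      refine sum_congr rfl fun i _ => ?_
      rw [mul_div_assoc, sum_div]
      congr 1
      refine sum_congr rfl fun p _ => ?_
      rw [mul_div_assoc]
    rw [e1]
    apply div_le_div_of_nonneg_right _ hδ.le
    linarith
  rw [le_div_iff₀ hδ] at hfin
  have h3 : 24 * B * 2 < S * (ε' * δ) := by
    have h5 : 24 * B / (ε' * δ) * 2 = (24 * B * 2) / (ε' * δ) := by ring
    rw [h5, div_lt_iff₀ (by positivity)] at hS
    exact hS
  have h4 : ε * S = ε' * δ / 16 * S := by rw [hε]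
  nlinarith

end main

end Pool.Agent.P8H6.Irw
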