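import Pool.Agent.P8H6.Irr.One

/-!
# Means with slowly varying weights
-/

set_option autoImplicit false

namespace Pool.Agent.P8H6.Irw

open Finset Filter Topology
open Pool.Agent.TH112.BL (Bd QD win)
open Pool.Agent.Y958.TC

/-- the limit of the weighted averages -/
noncomputable def wl (𝓤 : Ultrafilter ℕ) (Θ : ℕ → ℕ → ℝ) (φ : ℕ → ℝ) : ℝ :=
  ulim 𝓤 (fun M => Av M (fun n => Θ M n * φ n))

/-- bounded families -/
def Bf (Θ : ℕ → ℕ → ℝ) : Prop := ∃ C : ℝ, ∀ M n, |Θ M n| ≤ C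

lemma Bf.mul {Θ Ψ : ℕ → ℕ → ℝ} (h : Bf Θ) (h' : Bf Ψ) : Bf (fun M n => Θ M n * Ψ M n) := by
  obtain ⟨C, hC⟩ := h
  obtain ⟨D, hD⟩ := h'
  refine ⟨C * D, fun M n => ?_⟩
  rw [abs_mul]
  exact mul_le_mul (hC M n) (hD M n) (abs_nonneg _) ((abs_nonneg _).trans (hC M n))

lemma Bf.fix {φ : ℕ → ℝ} (h : Bd φ) : Bf (fun _ n => φ n) := by
  obtain ⟨C, hC⟩ := h
  exact ⟨C, fun _ n => hC n⟩

lemma av_lim (𝓤 : Ultrafilter ℕ) {Θ : ℕ → ℕ → ℝ} (h : Bf Θ) :
    Tendsto (fun M => Av M (Θ M)) 𝓤 (𝓝 (ulim 𝓤 (fun M => Av M (Θ M)))) := by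
  obtain ⟨C, hC⟩ := h
  have hC0 : 0 ≤ C := (abs_nonneg _).trans (hC 0 0)
  exact ulim_spec 𝓤 C fun M => Av_bd hC0 (hC M) M

lemma wl_tendsto (𝓤 : Ultrafilter ℕ) {Θ : ℕ → ℕ → ℝ} (h : Bf Θ) {φ : ℕ → ℝ} (hφ : Bd φ) :
    Tendsto (fun M => Av M (fun n => Θ M n * φ n)) 𝓤 (𝓝 (wl 𝓤 Θ φ)) :=
  av_lim 𝓤 (h.mul (Bf.fix hφ))

lemma Av_abs_le (M : ℕ) (φ : ℕ → ℝ) : |Av M φ| ≤ Av M (fun n => |φ n|) := by
  unfold Av
  rw [abs_div, Nat.abs_cast]
  exact div_le_div_of_nonneg_right (abs_sum_le_sum_abs _ _) (Nat.cast_nonneg _)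

lemma Av_mono (M : ℕ) {φ ψ : ℕ → ℝ} (h : ∀ n, φ n ≤ ψ n) : Av M φ ≤ Av M ψ := by
  unfold Av
  exact div_le_div_of_nonneg_right (sum_le_sum fun n _ => h n) (Nat.cast_nonneg _)

lemma Av_nonneg (M : ℕ) {φ : ℕ → ℝ} (h : ∀ n, 0 ≤ φ n) : 0 ≤ Av M φ := by
  unfold Av
  exact div_nonneg (sum_nonneg fun n _ => h n) (Nat.cast_nonneg _)

lemma Av_sub (M : ℕ) (φ ψ : ℕ → ℝ) : Av M (fun n => φ n - ψ n) = Av M φ - Av M ψ := by
  unfold Av; rw [sum_sub_distrib, sub_div]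

lemma Av_sum {ι : Type} (s : Finset ι) (M : ℕ) (φ : ι → ℕ → ℝ) :
    Av M (fun n => ∑ i ∈ s, φ i n) = ∑ i ∈ s, Av M (φ i) := by
  unfold Av
  rw [sum_comm, sum_div]

lemma Av_one {M : ℕ} (h : 1 ≤ M) : Av M (fun _ => 1) = 1 := by
  unfold Av
  have : (M : ℝ) ≠ 0 := by
    have : (1 : ℝ) ≤ M := by exact_mod_cast h
    linarith
  simp [this]

lemma Av_shift (M : ℕ) (φ : ℕ → ℝ) : Av M (fun n => φ (n + 1)) = Av M φ + (φ M - φ 0) / M := by
  unfold Av
  rw [← add_div]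
  congr 1
  have := sum_range_succ (fun n => φ n) M
  have h5 := sum_range_succ' (fun n => φ n) M
  linarith

/-- weights: between `0` and `1`, slowly varying along the ultrafilter -/
structure Wt (𝓤 : Ultrafilter ℕ) (Θ : ℕ → ℕ → ℝ) : Prop where
  nn : ∀ M n, 0 ≤ Θ M n
  le : ∀ M n, Θ M n ≤ 1
  sv : Tendsto (fun M => Av M (fun n => |Θ M (n + 1) - Θ M n|)) 𝓤 (𝓝 0)

lemma Wt.bf {𝓤 : Ultrafilter ℕ} {Θ : ℕ → ℕ → ℝ} (h : Wt 𝓤 Θ) : Bf Θ :=
  ⟨1, fun M n => by rw [abs_of_nonneg (h.nn M n)]; exact h.le M n⟩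

/-- the mean with weights -/
noncomputable def wm (𝓤 : Ultrafilter ℕ) (hU : (𝓤 : Filter ℕ) ≤ atTop) (Θ : ℕ → ℕ → ℝ) (h : Wt 𝓤 Θ)
    (hp : 0 < wl 𝓤 Θ (fun _ => 1)) : NM where
  m φ := wl 𝓤 Θ φ / wl 𝓤 Θ (fun _ => 1)
  add φ ψ h1 h2 := by
    rw [← add_div]
    congr 1
    apply ulim_eq
    have h3 := (wl_tendsto 𝓤 h.bf h1).add (wl_tendsto 𝓤 h.bf h2)
    refine h3.congr fun M => ?_
    rw [← Av_add]
    congr 1
    funext n
    ring
  smul c φ h1 := by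
    rw [← mul_div_assoc]
    congr 1
    apply ulim_eq
    have h3 := (wl_tendsto 𝓤 h.bf h1).const_mul c
    refine h3.congr fun M => ?_
    rw [← Av_smul]
    congr 1
    funext n
    ring
  nonneg φ h1 h0 := by
    apply div_nonneg _ hp.le
    apply ge_of_tendsto (wl_tendsto 𝓤 h.bf h1)
    filter_upwards with M
    exact Av_nonneg M fun n => mul_nonneg (h.nn M n) (h0 n)
  one := div_self hp.ne'
  shift φ h1 := by
    congr 1
    apply ulim_eq
    have h2 := wl_tendsto 𝓤 h.bf h1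
    obtain ⟨C, hC⟩ := h1
    have hC0 : 0 ≤ C := (abs_nonneg _).trans (hC 0)
    have h3 : Tendsto (fun M : ℕ => (2 * C) / (M : ℝ) + C * Av M (fun n => |Θ M (n + 1) - Θ M n|)) 𝓤 (𝓝 0) := by
      have h4 : Tendsto (fun M : ℕ => (2 * C) / (M : ℝ)) 𝓤 (𝓝 0) :=
        (tendsto_const_div_atTop_nhds_zero_nat (2 * C)).mono_left hU
      have h5 := h4.add (h.sv.const_mul C)
      simpa using h5
    have h6 : Tendsto (fun M => Av M (fun n => Θ M n * φ (n + 1)) - Av M (fun n => Θ M n * φ n)) 𝓤 (𝓝 0) := by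
      apply squeeze_zero_norm _ h3
      intro M
      rw [Real.norm_eq_abs]
      have e1 := Av_shift M (fun n => Θ M n * φ n)
      have e2 : Av M (fun n => Θ M n * φ (n + 1)) =
          Av M (fun n => Θ M (n + 1) * φ (n + 1)) - Av M (fun n => (Θ M (n + 1) - Θ M n) * φ (n + 1)) := by
        rw [← Av_sub]
        congr 1
        funext n
        ring
      rw [e2, e1]
      have e3 : |Av M (fun n => (Θ M (n + 1) - Θ M n) * φ (n + 1))| ≤ C * Av M (fun n => |Θ M (n + 1) - Θ M n|) := by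
        refine (Av_abs_le _ _).trans ?_
        rw [← Av_smul]
        apply Av_mono
        intro n
        rw [abs_mul, mul_comm C]
        exact mul_le_mul_of_nonneg_left (hC _) (abs_nonneg _)
      have e4 : |(Θ M M * φ M - Θ M 0 * φ 0) / M| ≤ 2 * C / M := by
        rw [abs_div, Nat.abs_cast]
        apply div_le_div_of_nonneg_right _ (Nat.cast_nonneg _)
        have a1 : ∀ n, |Θ M n * φ n| ≤ C := by
          intro n
          rw [abs_mul, abs_of_nonneg (h.nn M n)]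
          calc Θ M n * |φ n| ≤ 1 * C := mul_le_mul (h.le M n) (hC n) (abs_nonneg _) zero_le_one
            _ = C := one_mul C
        have := abs_sub (Θ M M * φ M) (Θ M 0 * φ 0)
        linarith [a1 M, a1 0]
      have e5 := abs_sub ((Θ M M * φ M - Θ M 0 * φ 0) / M) (Av M (fun n => (Θ M (n + 1) - Θ M n) * φ (n + 1)))
      have e6 : Av M (fun n => Θ M n * φ n) + (Θ M M * φ M - Θ M 0 * φ 0) / M -
          Av M (fun n => (Θ M (n + 1) - Θ M n) * φ (n + 1)) - Av M (fun n => Θ M n * φ n) =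
          (Θ M M * φ M - Θ M 0 * φ 0) / M - Av M (fun n => (Θ M (n + 1) - Θ M n) * φ (n + 1)) := by ring
      rw [e6]
      linarith
    have h7 := h2.add h6
    rw [add_zero] at h7
    refine h7.congr fun M => ?_
    ring

lemma wm_m (𝓤 : Ultrafilter ℕ) (hU : (𝓤 : Filter ℕ) ≤ atTop) (Θ : ℕ → ℕ → ℝ) (h : Wt 𝓤 Θ)
    (hp : 0 < wl 𝓤 Θ (fun _ => 1)) (φ : ℕ → ℝ) :
    wl 𝓤 Θ φ = wl 𝓤 Θ (fun _ => 1) * (wm 𝓤 hU Θ h hp).m φ := by
  show _ = _ * (wl 𝓤 Θ φ / wl 𝓤 Θ (fun _ => 1))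
  rw [mul_div_cancel₀ _ hp.ne']

/-! ### a partition of unity -/

/-- tent functions on `[-1, 1]`, the centres are `(l - R) / R` -/
noncomputable def tent (R : ℕ) (l : ℕ) (x : ℝ) : ℝ := max 0 (1 - |R * x - ((l : ℝ) - R)|)

lemma tent_nn (R l : ℕ) (x : ℝ) : 0 ≤ tent R l x := le_max_left _ _

lemma tent_le (R l : ℕ) (x : ℝ) : tent R l x ≤ 1 := by
  unfold tent
  apply max_le zero_le_one
  linarith [abs_nonneg (R * x - ((l : ℝ) - R))]

lemma tent_lip (R l : ℕ) (x y : ℝ) : |tent R l x - tent R l y| ≤ R * |x - y| := by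
  unfold tent
  rw [max_comm 0, max_comm 0]
  refine (abs_max_sub_max_le_abs _ _ _).trans ?_
  have e : 1 - |R * x - ((l : ℝ) - R)| - (1 - |R * y - ((l : ℝ) - R)|) =
      |R * y - ((l : ℝ) - R)| - |R * x - ((l : ℝ) - R)| := by ring
  rw [e]
  refine (abs_abs_sub_abs_le _ _).trans ?_
  have e2 : R * y - ((l : ℝ) - R) - (R * x - ((l : ℝ) - R)) = R * (y - x) := by ring
  rw [e2, abs_mul, Nat.abs_cast, abs_sub_comm]

/-- on the support of the tent function -/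
lemma tent_supp {R l : ℕ} (hR : 1 ≤ R) {x : ℝ} (h : tent R l x ≠ 0) : |x - ((l : ℝ) - R) / R| ≤ 1 / R := by
  have hR0 : (0 : ℝ) < R := by exact_mod_cast hR
  unfold tent at h
  have h1 : 0 < 1 - |R * x - ((l : ℝ) - R)| := by
    by_contra hcon
    exact h (max_eq_left (not_lt.1 hcon))
  have e : x - ((l : ℝ) - R) / R = (R * x - ((l : ℝ) - R)) / R := by
    field_simp
  rw [e, abs_div, Nat.abs_cast]
  apply div_le_div_of_nonneg_right _ hR0.le
  linarith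

lemma tent_sum {R : ℕ} {x : ℝ} (hx : |x| ≤ 1) : ∑ l ∈ range (2 * R + 2), tent R l x = 1 := by
  obtain ⟨t, ht⟩ : ∃ t : ℝ, t = R * x + R := ⟨_, rfl⟩
  have hx' := abs_le.1 hx
  have hR0 : (0 : ℝ) ≤ R := Nat.cast_nonneg R
  have ht0 : 0 ≤ t := by rw [ht]; nlinarith
  have ht1 : t ≤ 2 * R := by rw [ht]; nlinarith
  obtain ⟨j, hj⟩ : ∃ j : ℕ, j = ⌊t⌋₊ := ⟨_, rfl⟩
  have h1 : (j : ℝ) ≤ t := by rw [hj]; exact Nat.floor_le ht0
  have h2 : t < j + 1 := by rw [hj]; exact Nat.lt_floor_add_one t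
  have hjR : j ≤ 2 * R := by
    have : (j : ℝ) ≤ ((2 * R : ℕ) : ℝ) := by push_cast; linarith
    exact_mod_cast this
  have hval : ∀ l : ℕ, tent R l x = max 0 (1 - |t - l|) := by
    intro l
    unfold tent
    rw [ht]
    congr 3
    ring
  rw [sum_eq_add j (j + 1) (by omega)]
  · rw [hval, hval]
    push_cast
    rw [abs_of_nonneg (by linarith), abs_of_nonpos (by linarith), max_eq_right (by linarith),
      max_eq_right (by linarith)]
    ring
  · intro l _ hl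
    rw [hval]
    apply max_eq_left
    rcases lt_or_ge l j with h3 | h3
    · have h4 : (l : ℝ) + 1 ≤ j := by exact_mod_cast h3
      rw [abs_of_nonneg (by linarith)]
      linarith
    · have h4 : ((j : ℝ) + 1) + 1 ≤ l := by
        have : j + 1 + 1 ≤ l := by omega
        exact_mod_cast this
      rw [abs_of_nonpos (by linarith)]
      linarith
  · intro h
    exact absurd (mem_range.2 (by omega)) h
  · intro h
    exact absurd (mem_range.2 (by omega)) h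

/-- the product of tent functions -/
noncomputable def Tn (P : Finset ℕ) (R : ℕ) (L : ℕ → ℕ) (x : ℕ → ℝ) : ℝ := ∏ p ∈ P, tent R (L p) (x p)

lemma Tn_nn (P : Finset ℕ) (R : ℕ) (L : ℕ → ℕ) (x : ℕ → ℝ) : 0 ≤ Tn P R L x :=
  prod_nonneg fun _ _ => tent_nn _ _ _

lemma Tn_le (P : Finset ℕ) (R : ℕ) (L : ℕ → ℕ) (x : ℕ → ℝ) : Tn P R L x ≤ 1 :=
  prod_le_one (fun _ _ => tent_nn _ _ _) fun _ _ => tent_le _ _ _

lemma Tn_lip (P : Finset ℕ) (R : ℕ) (L : ℕ → ℕ) (x y : ℕ → ℝ) :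
    |Tn P R L x - Tn P R L y| ≤ ∑ p ∈ P, R * |x p - y p| := by
  classical
  unfold Tn
  induction P using Finset.induction_on with
  | empty => simp
  | insert q P hq ih =>
    rw [prod_insert hq, prod_insert hq, sum_insert hq]
    have e : tent R (L q) (x q) * ∏ p ∈ P, tent R (L p) (x p) - tent R (L q) (y q) * ∏ p ∈ P, tent R (L p) (y p) =
        (tent R (L q) (x q) - tent R (L q) (y q)) * ∏ p ∈ P, tent R (L p) (x p) +
        tent R (L q) (y q) * (∏ p ∈ P, tent R (L p) (x p) - ∏ p ∈ P, tent R (L p) (y p)) := by ring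
    rw [e]
    refine (abs_add_le _ _).trans (add_le_add ?_ ?_)
    · rw [abs_mul]
      calc |tent R (L q) (x q) - tent R (L q) (y q)| * |∏ p ∈ P, tent R (L p) (x p)| ≤
            (R * |x q - y q|) * 1 := by
            apply mul_le_mul (tent_lip _ _ _ _) _ (abs_nonneg _) (by positivity)
            have h1 := Tn_nn P R L x
            have h2 := Tn_le P R L x
            unfold Tn at h1 h2
            rw [abs_of_nonneg h1]
            exact h2
        _ = _ := mul_one _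
    · rw [abs_mul]
      calc |tent R (L q) (y q)| * |∏ p ∈ P, tent R (L p) (x p) - ∏ p ∈ P, tent R (L p) (y p)| ≤
            1 * ∑ p ∈ P, R * |x p - y p| := by
            apply mul_le_mul _ ih (abs_nonneg _) zero_le_one
            rw [abs_of_nonneg (tent_nn _ _ _)]
            exact tent_le _ _ _
        _ = _ := one_mul _

/-- the index set -/
noncomputable def Ls (P : Finset ℕ) (R : ℕ) : Finset (∀ p ∈ P, ℕ) := P.pi fun _ => range (2 * R + 2)

open Classical in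
/-- extension by zero -/
noncomputable def ex {P : Finset ℕ} (l : ∀ p ∈ P, ℕ) (p : ℕ) : ℕ := if h : p ∈ P then l p h else 0

lemma Tn_sum (P : Finset ℕ) (R : ℕ) (x : ℕ → ℝ) (hx : ∀ p, |x p| ≤ 1) :
    ∑ l ∈ Ls P R, Tn P R (ex l) x = 1 := by
  classical
  have h1 : ∏ p ∈ P, ∑ l ∈ range (2 * R + 2), tent R l (x p) = 1 :=
    prod_eq_one fun p _ => tent_sum (hx p)
  rw [prod_sum] at h1
  rw [← h1]
  unfold Ls Tn
  refine sum_congr rfl fun l _ => ?_
  rw [← prod_attach P (fun p => tent R (ex l p) (x p))]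
  refine prod_congr rfl fun p _ => ?_
  unfold ex
  rw [dif_pos p.2]

end Pool.Agent.P8H6.Irw
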